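import Pool.Agent.KS6_21.P3.AForm

/-!
The divisor `Z ^ p - Z = f` on the charts of a line bundle.
-/

set_option autoImplicit false
set_option linter.unusedVariables false
set_option linter.unusedSectionVars false

universe u

open Polynomial Pool.Agent.W558 Pool.Agent.W177.WD Pool.Agent.KS6_21.P1 Pool.Agent.KS6_21.P2
  Pool.Agent.TH214

namespace Pool.Agent.KS6_21.P3

section chart

variable {k N : Type u} [Field k] [Field N] [Algebra k N] {A : Subalgebra k N} {I : Type}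
  [Fintype I] {x : I → N}

/-- The local equation of the divisor. -/
lemma achart {p : ℕ} (hp : p.Prime) (hx : ∀ i, x i ∈ A) (hx0 : ∀ i, x i ≠ 0) {F y h : N}
    {c μ : I → ℤ} (hy : y ∈ A) (hy0 : y ≠ 0) (hh : h ∈ A) (hμ : ∀ i, μ i ≤ 0)
    (heq : F = mn x (fun i => (p : ℤ) * μ i) *
      (y ^ p - mn x (fun i => -((p : ℤ) - 1) * μ i) * y - mn x c * h))
    (hF : (∀ i, c i ≤ 0 ∨ (x i)⁻¹ ∈ A) ∨ ((∀ i, 0 ≤ c i ∨ (x i)⁻¹ ∈ A) ∧ y⁻¹ ∈ A)) :
    ∃ f w : N, f ∈ A ∧ (w ≠ 0 ∧ w ∈ A ∧ w⁻¹ ∈ A) ∧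
      F = w * mn x (fun i => p * μ i + min (c i) 0) * f ∧
      (((∀ i, c i ≤ 0 ∨ (x i)⁻¹ ∈ A) ∧ F = mn x (fun i => c i + p * μ i) * f) ∨
        ((∀ i, 0 ≤ c i ∨ (x i)⁻¹ ∈ A) ∧ y⁻¹ ∈ A ∧ F = (mn x μ * y) ^ p * f)) := by
  have hmμ : mn x μ ≠ 0 := mn_ne hx0 μ
  have hmc : mn x c ≠ 0 := mn_ne hx0 c
  have e1 : mn x (fun i => (p : ℤ) * μ i) = mn x μ ^ p := mn_mul _ _ _
  have e2 : mn x (fun i => c i + p * μ i) = mn x c * mn x μ ^ p := by
    rw [mn_add hx0, e1]
  have e4 : mn x (fun i => p * μ i + min (c i) 0) = mn x μ ^ p * mn x (fun i => min (c i) 0) := by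
    rw [mn_add hx0, e1]
  have hpp : (1 : ℤ) ≤ p := by exact_mod_cast hp.one_le
  have hνn : ∀ i, 0 ≤ -((p : ℤ) - 1) * μ i := by
    intro i
    have h1 : 0 ≤ ((p : ℤ) - 1) * -μ i := mul_nonneg (by omega) (by have := hμ i; omega)
    linarith
  rcases hF with h1 | ⟨h1, h2⟩
  · have hA1 : mn x (fun i => -c i) ∈ A := mn_mem hx fun i => by
      rcases h1 i with h | h
      · left; omega
      · exact Or.inr h
    have hA2 : mn x (fun i => -((p : ℤ) - 1) * μ i - c i) ∈ A := mn_mem hx fun i => by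
      rcases h1 i with h | h
      · left
        have := hνn i
        omega
      · exact Or.inr h
    refine ⟨mn x (fun i => -c i) * y ^ p - mn x (fun i => -((p : ℤ) - 1) * μ i - c i) * y - h,
      mn x (fun i => c i - min (c i) 0), A.sub_mem (A.sub_mem (A.mul_mem hA1 (A.pow_mem hy p))
        (A.mul_mem hA2 hy)) hh, ⟨mn_ne hx0 _, ?_, ?_⟩, ?_, Or.inl ⟨h1, ?_⟩⟩
    · refine mn_mem hx fun i => ?_
      left; omega
    · refine mn_inv_mem hx fun i => ?_
      rcases h1 i with h | h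
      · left; omega
      · exact Or.inr h
    · rw [heq, e1, e4, mn_sub hx0, mn_sub hx0, mn_neg]
      have := mn_ne hx0 (fun i => min (c i) 0)
      field_simp
    · rw [heq, e1, e2, mn_sub hx0, mn_neg]
      field_simp
  · have hA1 : mn x (fun i => -((p : ℤ) - 1) * μ i) ∈ A := mn_mem hx fun i => Or.inl (hνn i)
    have hA2 : mn x c ∈ A := mn_mem hx h1
    refine ⟨1 - mn x (fun i => -((p : ℤ) - 1) * μ i) * y⁻¹ ^ (p - 1) - mn x c * y⁻¹ ^ p * h,
      y ^ p * mn x (fun i => -min (c i) 0), A.sub_mem (A.sub_mem A.one_mem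
        (A.mul_mem hA1 (A.pow_mem h2 _))) (A.mul_mem (A.mul_mem hA2 (A.pow_mem h2 _)) hh),
      ⟨mul_ne_zero (pow_ne_zero _ hy0) (mn_ne hx0 _), ?_, ?_⟩, ?_, Or.inr ⟨h1, h2, ?_⟩⟩
    · refine A.mul_mem (A.pow_mem hy p) (mn_mem hx fun i => ?_)
      left; omega
    · rw [mul_inv, ← inv_pow]
      refine A.mul_mem (A.pow_mem h2 p) (mn_inv_mem hx fun i => ?_)
      rcases h1 i with h | h
      · left; omega
      · exact Or.inr h
    · have h3 : y ^ p = y ^ (p - 1) * y := by rw [← pow_succ, Nat.sub_add_cancel hp.one_le]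
      rw [heq, e1, e4, mn_neg, inv_pow, inv_pow]
      have := mn_ne hx0 (fun i => min (c i) 0)
      have h4 := pow_ne_zero (p - 1) hy0
      have h5 : y ^ p * (1 - mn x (fun i => -((p : ℤ) - 1) * μ i) * (y ^ (p - 1))⁻¹ -
          mn x c * (y ^ p)⁻¹ * h) = y ^ p - mn x (fun i => -((p : ℤ) - 1) * μ i) * y -
          mn x c * h := by
        rw [h3]
        field_simp
      rw [← h5]
      field_simp
    · have h3 : y ^ p = y ^ (p - 1) * y := by rw [← pow_succ, Nat.sub_add_cancel hp.one_le]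
      rw [heq, e1, inv_pow, inv_pow, mul_pow]
      have h4 := pow_ne_zero (p - 1) hy0
      have h5 : y ^ p * (1 - mn x (fun i => -((p : ℤ) - 1) * μ i) * (y ^ (p - 1))⁻¹ -
          mn x c * (y ^ p)⁻¹ * h) = y ^ p - mn x (fun i => -((p : ℤ) - 1) * μ i) * y -
          mn x c * h := by
        rw [h3]
        field_simp
      rw [← h5]
      ring

/-- The normal form of the function. -/
lemma alev {p : ℕ} [Fact p.Prime] [CharP k p] (hx : ∀ i, x i ∈ A) (hx0 : ∀ i, x i ≠ 0)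
    {A0 : Subalgebra k N} (hA0 : A0 ≤ A) {F y h f : N} {μ n ν : I → ℤ}
    (hν : ∀ i, ν i = min (μ i) (n i)) (hy : y ∈ A0)
    (hy0 : y ≠ 0) (hh : h ∈ A0) (hf : f ∈ A0) (hμ : ∀ i, μ i ≤ 0)
    (hF2 : F = (mn x μ * y) ^ p - mn x μ * y - mn x n * h)
    (ht : ((∀ i, n i ≤ μ i ∨ (x i)⁻¹ ∈ A) ∧ F = mn x n * f) ∨
      ((∀ i, p * μ i ≤ n i ∨ (x i)⁻¹ ∈ A) ∧ y⁻¹ ∈ A ∧ F = (mn x μ * y) ^ p * f)) :
    ∃ a' g1 g2 : N, g1 ∈ A0 ∧ g2 ∈ A0 ∧
      F = a' ^ p + mn x ν * (f * (mn x (fun i => n i - ν i) * g1 +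
        mn x (fun i => μ i - ν i) * g2)) ∧
      ∀ (κ : Type u) [Field κ] [Algebra k κ] (φ : A →ₐ[k] κ) (hh' : mn x (fun i => n i - ν i) * g1 +
        mn x (fun i => μ i - ν i) * g2 ∈ A), φ ⟨f, hA0 hf⟩ = 0 → φ ⟨_, hh'⟩ ≠ 0 ∧
          ((∀ i, n i ≤ μ i ∨ (x i)⁻¹ ∈ A) ∨ ∀ i, φ ⟨x i, hx i⟩ = 0 → ν i = p * μ i) := by
  have hp : p.Prime := Fact.out
  have hcN : CharP N p := charP_of_injective_algebraMap (algebraMap k N).injective p
  have hν0 := mn_ne hx0 ν
  have hnν : mn x (fun i => n i - ν i) = mn x n * (mn x ν)⁻¹ := mn_sub hx0 _ _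
  have hμν : mn x (fun i => μ i - ν i) = mn x μ * (mn x ν)⁻¹ := mn_sub hx0 _ _
  have hn1 : ∀ i, 0 ≤ n i - ν i := fun i => by rw [hν]; have := min_le_right (μ i) (n i); omega
  have hμ1 : ∀ i, 0 ≤ μ i - ν i := fun i => by rw [hν]; have := min_le_left (μ i) (n i); omega
  rcases ht with ⟨h1, h2⟩ | ⟨h1, h2, h3⟩
  · refine ⟨0, 1, 0, A0.one_mem, A0.zero_mem, ?_, ?_⟩
    · rw [zero_pow hp.ne_zero, zero_add, mul_zero, add_zero, mul_one, hnν, h2]
      field_simp
    · intro κ _ _ φ hh' h0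
      refine ⟨?_, Or.inl h1⟩
      have h3 : (⟨_, hh'⟩ : A) = ⟨mn x (fun i => n i - ν i),
          mn_mem hx fun i => Or.inl (hn1 i)⟩ := Subtype.ext (by
        change mn x (fun i => n i - ν i) * 1 + mn x (fun i => μ i - ν i) * 0 = _
        rw [mul_zero, add_zero, mul_one])
      rw [h3]
      refine mn_nv hx hx0 (fun i => Or.inl (hn1 i)) φ ?_
      intro i hi
      have h4 : (x i)⁻¹ ∉ A := fun h5 => ne_of_unit φ (hx i) (hx0 i) h5 hi
      have h5 := (h1 i).resolve_right h4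
      rw [hν, min_eq_right h5, sub_self]
  · have hμ0 := mn_ne hx0 μ
    let σ : N := ∑ j ∈ Finset.range (p - 1), f ^ j
    have hσ : σ ∈ A0 := A0.sum_mem fun j _ => A0.pow_mem hf j
    have hgeom : (1 - f) * σ = 1 - f ^ (p - 1) := mul_neg_geom_sum f (p - 1)
    have hpp : f ^ p = f * f ^ (p - 1) := by rw [← pow_succ', Nat.sub_add_cancel hp.one_le]
    have hWX : (mn x μ * y) ^ p * (1 - f) = mn x μ * y + mn x n * h := by
      linear_combination h3 - hF2
    have hY : mn x ν * (mn x (fun i => n i - ν i) * h + mn x (fun i => μ i - ν i) * y) =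
        (mn x μ * y) ^ p * (1 - f) := by
      rw [hWX, hnν, hμν]
      field_simp
      ring
    refine ⟨f * (mn x μ * y), σ * h, σ * y, A0.mul_mem hσ hh, A0.mul_mem hσ hy, ?_, ?_⟩
    · have h4 : mn x ν * (f * (mn x (fun i => n i - ν i) * (σ * h) +
          mn x (fun i => μ i - ν i) * (σ * y))) = f * σ * (mn x ν *
          (mn x (fun i => n i - ν i) * h + mn x (fun i => μ i - ν i) * y)) := by ring
      rw [h4, hY, mul_pow, hpp, h3]
      linear_combination -(mn x μ * y) ^ p * f * hgeom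
    · intro κ _ _ φ hh' h0
      have hp0 : (0 : ℤ) ≤ (p : ℤ) := Int.natCast_nonneg p
      have hνp : ∀ i, 0 ≤ ν i - p * μ i ∨ (x i)⁻¹ ∈ A := by
        intro i
        rcases h1 i with h4 | h4
        · left
          have h5 : (p : ℤ) * μ i ≤ μ i := by
            have h6 : (1 : ℤ) ≤ p := by exact_mod_cast hp.one_le
            nlinarith [hμ i]
          rw [hν]
          have := le_min h5 h4
          omega
        · exact Or.inr h4
      let σ' : A := ⟨σ, hA0 hσ⟩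
      have hσφ : φ σ' = 1 := by
        have h4 : σ' = ∑ j ∈ Finset.range (p - 1), (⟨f, hA0 hf⟩ : A) ^ j := by
          apply Subtype.ext
          have h5 : ((∑ j ∈ Finset.range (p - 1), (⟨f, hA0 hf⟩ : A) ^ j : A) : N) =
              ∑ j ∈ Finset.range (p - 1), f ^ j := by
            change A.val (∑ j ∈ Finset.range (p - 1), (⟨f, hA0 hf⟩ : A) ^ j) = _
            rw [map_sum]
            rfl
          rw [h5]
        rw [h4, map_sum, Finset.sum_eq_single 0]
        · rw [pow_zero, map_one]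
        · intro b _ hb
          rw [map_pow, h0, zero_pow hb]
        · intro hb
          exfalso
          apply hb
          rw [Finset.mem_range]
          have := hp.two_le
          omega
      have hYA : mn x (fun i => n i - ν i) * h + mn x (fun i => μ i - ν i) * y ∈ A :=
        A.add_mem (A.mul_mem (mn_mem hx fun i => Or.inl (hn1 i)) (hA0 hh))
          (A.mul_mem (mn_mem hx fun i => Or.inl (hμ1 i)) (hA0 hy))
      have h4 : (⟨_, hh'⟩ : A) = σ' * ⟨_, hYA⟩ := Subtype.ext (by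
        change mn x (fun i => n i - ν i) * (σ * h) + mn x (fun i => μ i - ν i) * (σ * y) =
          σ * (mn x (fun i => n i - ν i) * h + mn x (fun i => μ i - ν i) * y)
        ring)
      have h5 : mn x (fun i => ν i - p * μ i) *
          (mn x (fun i => n i - ν i) * h + mn x (fun i => μ i - ν i) * y) = y ^ p * (1 - f) := by
        have h6 : mn x (fun i => ν i - p * μ i) = mn x ν * (mn x μ ^ p)⁻¹ := by
          rw [mn_sub hx0, mn_mul]
        rw [h6, mul_right_comm, hY, mul_pow]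
        have := pow_ne_zero p hμ0
        field_simp
      have h6 : φ ⟨_, mn_mem hx hνp⟩ * φ ⟨_, hYA⟩ = φ ⟨y, hA0 hy⟩ ^ p * (1 - φ ⟨f, hA0 hf⟩) := by
        rw [← map_mul, ← map_pow, ← map_one φ, ← map_sub, ← map_mul]
        exact congrArg φ (Subtype.ext h5)
      have h7 : φ ⟨y, hA0 hy⟩ ≠ 0 := ne_of_unit φ (hA0 hy) hy0 h2
      have h8 : φ ⟨_, mn_mem hx hνp⟩ * φ ⟨_, hYA⟩ ≠ 0 := by
        rw [h6, h0, sub_zero, mul_one]
        exact pow_ne_zero p h7
      refine ⟨?_, Or.inr ?_⟩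
      · rw [h4, map_mul, hσφ, one_mul]
        exact right_ne_zero_of_mul h8
      · intro i hi
        have := mn_nv' hx hx0 hνp φ (left_ne_zero_of_mul h8) i hi
        omega

end chart

end Pool.Agent.KS6_21.P3
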