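import Pool.Agent.KS6_21.P2.Pull
import Pool.Graph.R_seed8.W558.WT.Asm3

/-!
The logarithmic form of the function `W ^ p - W - X` for `W = x ^ μ * y`, `X = x ^ n * h`.
-/

set_option autoImplicit false
set_option linter.unusedVariables false
set_option linter.unusedSectionVars false

universe u

open Polynomial Pool.Agent.W177.WD Pool.Agent.KS6_21.P1 Pool.Agent.KS6_21.P2
  Pool.Agent.TH188.WQ Pool.Agent.TH214

open Pool.Agent.W558 hiding Ovr ci

namespace Pool.Agent.KS6_21.P3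

section abs

variable {p : ℕ} [Fact p.Prime] {k K : Type u} [Field k] [CharP k p] [Field K] [Algebra k K]
  {A : Subalgebra k K} [Algebra.Smooth k A] {I : Type} [Fintype I] [DecidableEq I] {x : I → K}

/-- The logarithmic form of a monomial times a function. -/
lemma om_mn {κ : Type u} [Field κ] [Algebra k κ] {φ : A →ₐ[k] κ} (hx : ∀ i, x i ∈ A)
    (hx0 : ∀ i, x i ≠ 0) (v : LT φ x) {m n : I → ℤ} {b : K} (hb : b ∈ A)
    (hm : ∀ i, 0 ≤ m i - n i ∨ (x i)⁻¹ ∈ A) (hmA : mn x (fun i => m i - n i) ∈ A)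
    (hmb : mn x (fun i => m i - n i) * b ∈ A) :
    om v n hmb = φ ⟨_, hmA⟩ * om v m hb := by
  have h1 := (lg_mn hx hx0 v (fun i => m i - n i) hm).eq hmA
  have h2 : (⟨mn x (fun i => m i - n i) * b, hmb⟩ : A) = ⟨_, hmA⟩ * ⟨b, hb⟩ := rfl
  have h3 : ∑ i, (((m i - n i : ℤ)) : κ) * v.e i = ∑ i, (m i : κ) * v.e i -
      ∑ i, (n i : κ) * v.e i := by
    rw [← Finset.sum_sub_distrib]
    exact Finset.sum_congr rfl fun i _ => by push_cast; ring
  unfold om
  rw [h2, v.D.leib, h1, map_mul, h3]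
  ring

lemma om_add {κ : Type u} [Field κ] [Algebra k κ] {φ : A →ₐ[k] κ} (v : LT φ x) {n : I → ℤ}
    {b c : K} (hb : b ∈ A) (hc : c ∈ A) (hbc : b + c ∈ A) :
    om v n hbc = om v n hb + om v n hc := by
  have h2 : (⟨b + c, hbc⟩ : A) = ⟨b, hb⟩ + ⟨c, hc⟩ := rfl
  unfold om
  rw [h2, map_add, map_add]
  ring

lemma om_congr {κ : Type u} [Field κ] [Algebra k κ] {φ : A →ₐ[k] κ} (v : LT φ x) {n : I → ℤ}
    {b c : K} (hb : b ∈ A) (h : c = b) : om v n (show c ∈ A from h ▸ hb) = om v n hb := by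
  subst h
  rfl

variable (p) in
lemma aform (hS : SNC A x) (hx : ∀ i, x i ∈ A) (hx0 : ∀ i, x i ≠ 0)
    (hfr : ∀ z : K, ∃ a ∈ A, ∃ b ∈ A, b ≠ 0 ∧ z = a * b⁻¹)
    {F a' y h0 b : K} {μ n ν : I → ℤ} (hy : y ∈ A) (hh : h0 ∈ A) (hb : b ∈ A)
    (hμ : ∀ i, 0 ≤ μ i - ν i ∨ (x i)⁻¹ ∈ A) (hn : ∀ i, 0 ≤ n i - ν i ∨ (x i)⁻¹ ∈ A)
    (h1 : F = a' ^ p + mn x ν * b)
    (h2 : F = (mn x μ * y) ^ p - mn x μ * y - mn x n * h0)
    {κ : Type u} [Field κ] [Algebra k κ] {φ : A →ₐ[k] κ} (v : LT φ x) :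
    om v ν hb = -(φ ⟨_, mn_mem hx hμ⟩ * om v μ hy + φ ⟨_, mn_mem hx hn⟩ * om v n hh) := by
  have hcK : CharP K p := charP_of_injective_algebraMap (algebraMap k K).injective p
  have hν0 := mn_ne hx0 ν
  have e1 : mn x (fun i => μ i - ν i) * y + mn x (fun i => n i - ν i) * h0 =
      (mn x ν)⁻¹ * (mn x μ * y + mn x n * h0) := by
    rw [mn_sub hx0, mn_sub hx0]
    ring
  have e2 : mn x (fun i => -ν i) * (mn x μ * y - a') ^ p =
      b + (mn x (fun i => μ i - ν i) * y + mn x (fun i => n i - ν i) * h0) := by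
    rw [e1, mn_neg, sub_pow_char]
    have h3 : (mn x μ * y) ^ p - a' ^ p = mn x ν * b + (mn x μ * y + mn x n * h0) := by
      linear_combination h1 - h2
    rw [h3]
    field_simp
  have hYA : mn x (fun i => μ i - ν i) * y + mn x (fun i => n i - ν i) * h0 ∈ A :=
    A.add_mem (A.mul_mem (mn_mem hx hμ) hy) (A.mul_mem (mn_mem hx hn) hh)
  have hbY := A.add_mem hb hYA
  have hz : mn x (fun i => -ν i) * (mn x μ * y - a') ^ p ∈ A := by
    rw [e2]
    exact hbY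
  have h3 := (lg_root hS hx hx0 hfr hz v).eq hz
  have h4 : (⟨mn x (fun i => -ν i) * (mn x μ * y - a') ^ p, hz⟩ : A) = ⟨_, hbY⟩ :=
    Subtype.ext e2
  have h5 : om v ν hbY = 0 := by
    unfold om
    rw [← h4, h3]
    simp only [Int.cast_neg, neg_mul, Finset.sum_neg_distrib]
    ring
  rw [om_add v hb hYA hbY, om_add v (A.mul_mem (mn_mem hx hμ) hy) (A.mul_mem (mn_mem hx hn) hh),
    om_mn hx hx0 v hy hμ (mn_mem hx hμ), om_mn hx hx0 v hh hn (mn_mem hx hn)] at h5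
  linear_combination h5

end abs

section nonv

variable {k K : Type u} [Field k] [Field K] [Algebra k K]
  {A : Subalgebra k K} {I : Type} [Fintype I] {x : I → K}

/-- A monomial with exponents zero at the vanishing coordinates does not vanish. -/
lemma mn_nv (hx : ∀ i, x i ∈ A) (hx0 : ∀ i, x i ≠ 0) {m : I → ℤ}
    (hm : ∀ i, 0 ≤ m i ∨ (x i)⁻¹ ∈ A) {κ : Type u} [Field κ] [Algebra k κ] (φ : A →ₐ[k] κ)
    (h : ∀ i, φ ⟨x i, hx i⟩ = 0 → m i = 0) : φ ⟨mn x m, mn_mem hx hm⟩ ≠ 0 := by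
  classical
  have key : ∀ s : Finset I, ∀ hs : ∏ i ∈ s, x i ^ m i ∈ A, φ ⟨_, hs⟩ ≠ 0 := by
    intro s
    induction s using Finset.induction_on with
    | empty =>
      intro hs
      have h1 : (⟨∏ i ∈ (∅ : Finset I), x i ^ m i, hs⟩ : A) = 1 :=
        Subtype.ext (by
          change ∏ i ∈ (∅ : Finset I), x i ^ m i = 1
          rw [Finset.prod_empty])
      rw [h1, map_one]
      exact one_ne_zero
    | insert j s hj ih =>
      intro hs
      have hsA : ∏ i ∈ s, x i ^ m i ∈ A := A.prod_mem fun i _ => zpow_mem_of (hx i) (hm i)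
      have hjA : x j ^ m j ∈ A := zpow_mem_of (hx j) (hm j)
      have h1 : (⟨∏ i ∈ insert j s, x i ^ m i, hs⟩ : A) = ⟨_, hjA⟩ * ⟨_, hsA⟩ :=
        Subtype.ext (Finset.prod_insert hj)
      rw [h1, map_mul]
      refine mul_ne_zero ?_ (ih hsA)
      by_cases h0 : φ ⟨x j, hx j⟩ = 0
      · have h2 : (⟨x j ^ m j, hjA⟩ : A) = 1 := Subtype.ext (by
          change x j ^ m j = 1
          rw [h j h0, zpow_zero])
        rw [h2, map_one]
        exact one_ne_zero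
      · rcases le_or_gt 0 (m j) with h3 | h3
        · obtain ⟨q, hq⟩ := Int.eq_ofNat_of_zero_le h3
          have h2 : (⟨x j ^ m j, hjA⟩ : A) = ⟨x j, hx j⟩ ^ q := Subtype.ext (by
            change x j ^ m j = x j ^ q
            rw [hq, zpow_natCast])
          rw [h2, map_pow]
          exact pow_ne_zero _ h0
        · have hjA' : (x j)⁻¹ ∈ A := (hm j).resolve_left (by omega)
          obtain ⟨q, hq⟩ := Int.eq_ofNat_of_zero_le (show 0 ≤ -m j by omega)
          have h2 : (⟨x j ^ m j, hjA⟩ : A) = ⟨(x j)⁻¹, hjA'⟩ ^ q := Subtype.ext (by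
            change x j ^ m j = (x j)⁻¹ ^ q
            have h4 : m j = -(q : ℤ) := by omega
            rw [h4, zpow_neg, zpow_natCast, inv_pow])
          rw [h2, map_pow]
          refine pow_ne_zero _ ?_
          exact ne_of_unit φ hjA' (inv_ne_zero (hx0 j)) (by rw [inv_inv]; exact hx j)
  exact key Finset.univ _

/-- The converse: the coordinates which occur with positive exponents do not vanish. -/
lemma mn_nv' (hx : ∀ i, x i ∈ A) (hx0 : ∀ i, x i ≠ 0) {m : I → ℤ}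
    (hm : ∀ i, 0 ≤ m i ∨ (x i)⁻¹ ∈ A) {κ : Type u} [Field κ] [Algebra k κ] (φ : A →ₐ[k] κ)
    (h : φ ⟨mn x m, mn_mem hx hm⟩ ≠ 0) (i : I) (hi : φ ⟨x i, hx i⟩ = 0) : m i = 0 := by
  classical
  have hnu : (x i)⁻¹ ∉ A := fun h1 => ne_of_unit φ (hx i) (hx0 i) h1 hi
  have h0 : 0 ≤ m i := (hm i).resolve_right hnu
  by_contra hne
  apply h
  have hA1 : ∏ l ∈ Finset.univ.erase i, x l ^ m l ∈ A :=
    A.prod_mem fun l _ => zpow_mem_of (hx l) (hm l)
  have hA2 : x i ^ (m i - 1) ∈ A := zpow_mem_of (hx i) (Or.inl (by omega))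
  have h1 : (⟨mn x m, mn_mem hx hm⟩ : A) = ⟨x i, hx i⟩ * (⟨_, hA2⟩ * ⟨_, hA1⟩) := by
    apply Subtype.ext
    change mn x m = x i * (x i ^ (m i - 1) * ∏ l ∈ Finset.univ.erase i, x l ^ m l)
    unfold mn
    rw [← Finset.mul_prod_erase Finset.univ _ (Finset.mem_univ i), ← mul_assoc,
      zpow_sub_one₀ (hx0 i)]
    have := hx0 i
    field_simp
  rw [h1, map_mul, hi, zero_mul]

end nonv

end Pool.Agent.KS6_21.P3
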