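import Pool.Agent.KS6_21.P3.AVec

/-!
Adding the divisor `Z ^ p - Z = f` to the boundary of the line bundle.
-/

set_option autoImplicit false
set_option linter.unusedVariables false
set_option linter.unusedSectionVars false

universe u

open Polynomial Pool.Agent.W558 Pool.Agent.W177.WD Pool.Agent.KS6_21.P1 Pool.Agent.KS6_21.P2
  Pool.Agent.TH214

namespace Pool.Agent.KS6_21.P3

section fin

variable {p : ℕ} [Fact p.Prime] {k K : Type u} [Field k] [CharP k p] [Field K] [Algebra k K]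
  {A : Subalgebra k K} [Algebra.Smooth k A] {I : Type} [Fintype I] [DecidableEq I] {x : I → K}

variable (p) in
/-- The form of the function `F` does not vanish at a point. -/
lemma afin (hS : SNC A x) (hx : ∀ i, x i ∈ A) (hx0 : ∀ i, x i ≠ 0)
    (hfr : ∀ z : K, ∃ a ∈ A, ∃ b ∈ A, b ≠ 0 ∧ z = a * b⁻¹)
    {F a' y h0 b : K} {μ n ν : I → ℤ} (hy : y ∈ A) (hh : h0 ∈ A) (hb : b ∈ A)
    (hμ0 : ∀ i, μ i ≤ 0) (hν : ∀ i, ν i = min (μ i) (n i))
    (h1 : F = a' ^ p + mn x ν * b)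
    (h2 : F = (mn x μ * y) ^ p - mn x μ * y - mn x n * h0)
    {κ : Type u} [Field κ] [Algebra k κ] {φ : A →ₐ[k] κ} {Pole : Prop}
    (hW : ∃ v : LT φ x, om v μ hy ≠ 0 ∧ om v n hh = 0)
    (hX : Pole → ∃ v : LT φ x, om v μ hy = 0 ∧ om v n hh ≠ 0)
    (hN : ¬ Pole → ∀ i, φ ⟨x i, hx i⟩ = 0 → n i = 0)
    (hC : Pole → (∀ i, φ ⟨x i, hx i⟩ = 0 → ν i = n i) ∨ ∀ i, φ ⟨x i, hx i⟩ = 0 → ν i = μ i) :
    ∃ v : LT φ x, om v ν hb ≠ 0 := by
  have hn1 : ∀ i, 0 ≤ n i - ν i ∨ (x i)⁻¹ ∈ A := fun i => by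
    left; rw [hν]; have := min_le_right (μ i) (n i); omega
  have hμ1 : ∀ i, 0 ≤ μ i - ν i ∨ (x i)⁻¹ ∈ A := fun i => by
    left; rw [hν]; have := min_le_left (μ i) (n i); omega
  have key : ∀ v : LT φ x, om v ν hb = -(φ ⟨_, mn_mem hx hμ1⟩ * om v μ hy +
      φ ⟨_, mn_mem hx hn1⟩ * om v n hh) := fun v =>
    aform p hS hx hx0 hfr hy hh hb hμ1 hn1 h1 h2 v
  have hcase : (∀ i, φ ⟨x i, hx i⟩ = 0 → ν i = μ i) → ∃ v : LT φ x, om v ν hb ≠ 0 := by
    intro h3
    obtain ⟨v, hv1, hv2⟩ := hW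
    refine ⟨v, ?_⟩
    rw [key, hv2, mul_zero, add_zero]
    exact neg_ne_zero.2 (mul_ne_zero (mn_nv hx hx0 hμ1 φ fun i hi => by
      rw [h3 i hi, sub_self]) hv1)
  by_cases hpl : Pole
  · rcases hC hpl with h3 | h3
    · obtain ⟨v, hv1, hv2⟩ := hX hpl
      refine ⟨v, ?_⟩
      rw [key, hv1, mul_zero, zero_add]
      exact neg_ne_zero.2 (mul_ne_zero (mn_nv hx hx0 hn1 φ fun i hi => by
        rw [h3 i hi, sub_self]) hv2)
    · exact hcase h3
  · refine hcase fun i hi => ?_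
    rw [hν, hN hpl i hi]
    exact min_eq_left (hμ0 i)

end fin

section pencil

variable (p : ℕ) [Fact p.Prime] {k L N : Type u} [Field k] [PerfectField k] [CharP k p] [Field L]
  [Field N] [Algebra k L] [Algebra k N] [Algebra L N] [IsScalarTower k L N]

/-- **The pencil.** -/
theorem apencil1 {T0 I0 T I G : Type} [Fintype I0] [Finite T] [Fintype I]
    (B : LM (⊥ : Subalgebra k L) ⊤ T0 I0) (M : LM (⊥ : Subalgebra k N) ⊤ T I)
    (π : T → T0) (Θ : I → I0 → ℤ) (f : L) (n0 : I0 → ℤ) (a0 h0 : T0 → L)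
    (hN : NAS p B f n0 a0 h0) (F : N) (Q : Subalgebra k N) (y : T → N) (c μ : I → ℤ)
    (hP : PAT p B M π Θ F Q y h0 n0 c μ) (hLq : Lq M Q) (g : G → N) (Γ : G → I → ℤ)
    (hFn : Fn M g Γ) (hF2 : Fin2 M y c) (hF0 : F ≠ 0) (hQ : ∀ x : N, x ∈ Q ∨ x⁻¹ ∈ Q) :
    GM p k (fun _ : Unit => F) (Sum.elim g (fun _ : Unit => F)) := by
  classical
  have hp : p.Prime := Fact.out
  have hp1 : (1 : ℤ) ≤ p := by exact_mod_cast hp.one_le
  have hFrM : Frc M := by
    intro t x
    by_cases hx0 : x = 0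
    · exact ⟨0, (M.A t).zero_mem, 1, (M.A t).one_mem, one_ne_zero, by rw [hx0, zero_mul]⟩
    rcases hQ x with hx | hx
    · obtain ⟨α, hα, β, hβ, hβ0, hβQ, hαβ⟩ := hLq t x hx
      exact ⟨α, hα, β, hβ, hβ0, by rw [← hαβ, mul_assoc, mul_inv_cancel₀ hβ0, mul_one]⟩
    · obtain ⟨α, hα, β, hβ, hβ0, hβQ, hαβ⟩ := hLq t _ hx
      refine ⟨β, hβ, α, hα, ?_, ?_⟩
      · rw [← hαβ]
        exact mul_ne_zero (inv_ne_zero hx0) hβ0
      · rw [← hαβ]
        field_simp
  have hmn : ∀ t (m : I → ℤ), ∏ i, M.x t i ^ m i = mn (M.x t) m := fun t m => rfl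
  choose fe w hfA hw hF htyp using fun t => achart hp (M.xA t) (M.x0 t) (hP.yA t) (hP.y0 t)
    (hP.ov.le t _ (hP.hA (π t))) hP.m0 (hP.eq t) (hF2 t)
  let n : I → ℤ := fun i => c i + p * μ i
  have hn_le : ∀ i, n i ≤ 0 := ce_le hN.n0 hP
  have hWX : ∀ t, F = (mn (M.x t) μ * y t) ^ p - mn (M.x t) μ * y t -
      mn (M.x t) n * algebraMap L N (h0 (π t)) := eq_WX hP
  have hhA : ∀ t, algebraMap L N (h0 (π t)) ∈ M.A t := fun t => hP.ov.le t _ (hP.hA (π t))
  -- the types of the charts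
  have htyp2 : ∀ t, (LE' (M.A t) (M.x t) n μ ∧ F = mn (M.x t) n * fe t) ∨
      (LE' (M.A t) (M.x t) (fun i => p * μ i) n ∧ (y t)⁻¹ ∈ M.A t ∧
        F = (mn (M.x t) μ * y t) ^ p * fe t) := by
    intro t
    rcases htyp t with ⟨h1, h2⟩ | ⟨h1, h2, h3⟩
    · refine Or.inl ⟨fun i => ?_, h2⟩
      rcases h1 i with h | h
      · left
        have := hP.m0 i
        change c i + p * μ i ≤ μ i
        nlinarith
      · exact Or.inr h
    · refine Or.inr ⟨fun i => ?_, h2, h3⟩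
      rcases h1 i with h | h
      · left
        change p * μ i ≤ c i + p * μ i
        omega
      · exact Or.inr h
  -- transversality
  have hsnc : ∀ t, SNC (M.A t) (fun o : Option I => o.elim (fe t) (M.x t)) := by
    intro t
    refine snc_option M t (fe t) (hfA t) ?_
    intro κ _ _ φ hf h0'
    have := M.sm t
    obtain ⟨a', g1, g2, hg1, hg2, h3, h4⟩ := alev (p := p) (M.xA t) (M.x0 t) (le_refl (M.A t))
      (ν := fun i => min (μ i) (n i)) (fun i => rfl) (hP.yA t) (hP.y0 t) (hhA t) (hfA t) hP.m0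
      (hWX t) (htyp2 t)
    set b : N := mn (M.x t) (fun i => n i - min (μ i) (n i)) * g1 +
      mn (M.x t) (fun i => μ i - min (μ i) (n i)) * g2 with hb
    have hbA : b ∈ M.A t := (M.A t).add_mem
      ((M.A t).mul_mem (mn_mem (M.xA t) fun i => Or.inl (by
        have := min_le_right (μ i) (n i)
        omega)) hg1)
      ((M.A t).mul_mem (mn_mem (M.xA t) fun i => Or.inl (by
        have := min_le_left (μ i) (n i)
        omega)) hg2)
    obtain ⟨h5, h6⟩ := h4 κ φ hbA h0'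
    have hfbA : fe t * b ∈ M.A t := (M.A t).mul_mem (hfA t) hbA
    obtain ⟨v, hv⟩ := afin p (M.snc t) (M.xA t) (M.x0 t) (hFrM t) (hP.yA t) (hhA t) hfbA hP.m0
      (fun i => rfl) h3 (hWX t) (φ := φ) (Pole := Pl hP t φ) (vecW hP t φ) (vecX hN hP t φ)
      (fun hpl i hi => (npl hN.n0 hP t φ hpl i hi).1) (by
        intro _
        left
        intro i hi
        rcases h6 with h6 | h6
        · have h7 := (h6 i).resolve_right fun h8 => ne_of_unit φ (M.xA t i) (M.x0 t i) h8 hi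
          exact min_eq_right h7
        · have h7 := h6 i hi
          have h8 := hP.m0 i
          have h9 := hn_le i
          have h10 : (2 : ℤ) ≤ p := by exact_mod_cast hp.two_le
          rcases min_choice (μ i) (n i) with h11 | h11
          · change min (μ i) (n i) = p * μ i at h7
            rw [h11] at h7
            have h12 : μ i = 0 := by nlinarith
            have h13 : μ i ≤ n i := min_eq_left_iff.1 h11
            change min (μ i) (n i) = n i
            omega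
          · exact h11)
    refine ⟨v.D, fun h7 => hv ?_, fun i hi => ?_⟩
    · have h8 : (⟨fe t * b, hfbA⟩ : M.A t) = ⟨fe t, hf⟩ * ⟨b, hbA⟩ := rfl
      unfold om
      rw [h8, v.D.leib, map_mul, h0', h7]
      simp
    · have h9 := v.hx i (M.xA t i)
      rw [h9, hi, zero_mul]
  let M3 : LM (⊥ : Subalgebra k N) ⊤ T (Option I) :=
    addD M F hF0 fe w (fun i => p * μ i + min (c i) 0) hfA hw hF hsnc
  have hM3A : ∀ t, M3.A t = M.A t := fun t => rfl
  -- monomials
  have hmn3 : ∀ t (m0 : ℤ) (m : I → ℤ), ∏ o, M3.x t o ^ (o.elim m0 m : ℤ) =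
      fe t ^ m0 * mn (M.x t) m := by
    intro t m0 m
    rw [Fintype.prod_option]
    rfl
  have hFrM3 : Frc M3 := hFrM
  have hFn3 : Fn M3 (Sum.elim g (fun _ : Unit => F))
      (Sum.elim (fun b o => o.elim 0 (Γ b)) (fun _ o => o.elim 1 fun i => p * μ i + min (c i) 0)) := by
    rintro (b | _) t
    · obtain ⟨w, hw0, hwA, hwA', h1⟩ := hFn b t
      refine ⟨w, hw0, hwA, hwA', ?_⟩
      change g b = w * ∏ o : Option I, M3.x t o ^ (o.elim 0 (Γ b) : ℤ)
      rw [hmn3, zpow_zero, one_mul]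
      exact h1
    · refine ⟨w t, (hw t).1, (hw t).2.1, (hw t).2.2, ?_⟩
      change F = w t * ∏ o : Option I, M3.x t o ^ (o.elim 1 fun i => p * μ i + min (c i) 0 : ℤ)
      rw [hmn3, zpow_one]
      conv_lhs => rw [hF t]
      ring
  -- principalization
  obtain ⟨T4, I4, hT4, hI4, M4, π4, Θ4, hO, hΘ, hcmp⟩ := wa_ovp k N ⊥ ⊤ T (Option I) Bool M3
    (fun b o => o.elim 0 (if b = true then μ else n))
  let μ4 : I4 → ℤ := tr Θ4 (fun o : Option I => o.elim 0 μ)
  let n4 : I4 → ℤ := tr Θ4 (fun o : Option I => o.elim 0 n)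
  let δ4 : I4 → ℤ := tr Θ4 (fun o : Option I => o.elim 1 fun _ => 0)
  let ν4 : I4 → ℤ := fun i => min (μ4 i) (n4 i)
  have hμ40 : ∀ i, μ4 i ≤ 0 := fun i => Finset.sum_nonpos fun o _ => by
    refine mul_nonpos_of_nonneg_of_nonpos (hΘ i o) ?_
    rcases o with _ | o
    · exact le_refl _
    · exact hP.m0 o
  have hn40 : ∀ i, n4 i ≤ 0 := fun i => Finset.sum_nonpos fun o _ => by
    refine mul_nonpos_of_nonneg_of_nonpos (hΘ i o) ?_
    rcases o with _ | o
    · exact le_refl _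
    · exact hn_le o
  have hμm : ∀ t, mn (M4.x t) μ4 = mn (M.x (π4 t)) μ := by
    intro t
    have h1 := prod_ov hO t (fun o : Option I => o.elim 0 μ)
    rw [hmn3, zpow_zero, one_mul] at h1
    exact h1.symm
  have hnm : ∀ t, mn (M4.x t) n4 = mn (M.x (π4 t)) n := by
    intro t
    have h1 := prod_ov hO t (fun o : Option I => o.elim 0 n)
    rw [hmn3, zpow_zero, one_mul] at h1
    exact h1.symm
  have hδm : ∀ t, mn (M4.x t) δ4 = fe (π4 t) := by
    intro t
    have h1 := prod_ov hO t (fun o : Option I => o.elim 1 fun _ => 0)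
    rw [hmn3, zpow_one] at h1
    have h2 : mn (M.x (π4 t)) (fun _ => 0) = 1 := by simp [mn]
    rw [h2, mul_one] at h1
    exact h1.symm
  have hδ0 : ∀ i, 0 ≤ δ4 i := fun i => Finset.sum_nonneg fun o _ => by
    refine mul_nonneg (hΘ i o) ?_
    rcases o with _ | o
    · exact zero_le_one
    · exact le_refl _
  have hle4 : ∀ t, M.A (π4 t) ≤ M4.A t := fun t => hO.le t
  have hWX4 : ∀ t, F = (mn (M4.x t) μ4 * y (π4 t)) ^ p - mn (M4.x t) μ4 * y (π4 t) -
      mn (M4.x t) n4 * algebraMap L N (h0 (π (π4 t))) := by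
    intro t
    rw [hμm, hnm]
    exact hWX (π4 t)
  have hLE4 : ∀ t {m m' : Option I → ℤ}, LE' (M3.A (π4 t)) (M3.x (π4 t)) m m' →
      LE' (M4.A t) (M4.x t) (tr Θ4 m) (tr Θ4 m') := fun t m m' h =>
    h.tr (M4.xA t) (M4.x0 t) (fun a ha => hO.le t ha) hΘ (hO.x t)
  have htyp4 : ∀ t, (LE' (M4.A t) (M4.x t) n4 μ4 ∧ F = mn (M4.x t) n4 * fe (π4 t)) ∨
      (LE' (M4.A t) (M4.x t) (fun i => p * μ4 i) n4 ∧ (y (π4 t))⁻¹ ∈ M4.A t ∧
        F = (mn (M4.x t) μ4 * y (π4 t)) ^ p * fe (π4 t)) := by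
    intro t
    rcases htyp2 (π4 t) with ⟨h1, h2⟩ | ⟨h1, h2, h3⟩
    · refine Or.inl ⟨hLE4 t ?_, ?_⟩
      · rintro (_ | i)
        · exact Or.inl le_rfl
        · exact h1 i
      · rw [hnm]
        exact h2
    · refine Or.inr ⟨?_, hle4 t h2, ?_⟩
      · have h4 : (fun i => (p : ℤ) * μ4 i) =
            tr Θ4 (fun o : Option I => o.elim 0 fun i => p * μ i) := by
          funext i
          simp only [μ4, tr]
          rw [Finset.mul_sum]
          refine Finset.sum_congr rfl fun o _ => ?_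
          rcases o with _ | o
          · simp
          · simp only [Option.elim_some]
            ring
        rw [h4]
        refine hLE4 t ?_
        rintro (_ | i)
        · exact Or.inl le_rfl
        · exact h1 i
      · rw [hμm]
        exact h3
  choose a4 g1 g2 hg1 hg2 hNF hzero using fun t => alev (p := p) (M4.xA t) (M4.x0 t) (hle4 t)
      (ν := ν4) (fun i => rfl) (hP.yA (π4 t)) (hP.y0 (π4 t)) (hhA (π4 t)) (hfA (π4 t)) hμ40
      (hWX4 t) (htyp4 t)
  let b4 : T4 → N := fun t => mn (M4.x t) (fun i => n4 i - ν4 i) * g1 t +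
    mn (M4.x t) (fun i => μ4 i - ν4 i) * g2 t
  have hnν : ∀ i, 0 ≤ n4 i - ν4 i := fun i => by
    have := min_le_right (μ4 i) (n4 i)
    change 0 ≤ n4 i - min (μ4 i) (n4 i)
    omega
  have hμν : ∀ i, 0 ≤ μ4 i - ν4 i := fun i => by
    have := min_le_left (μ4 i) (n4 i)
    change 0 ≤ μ4 i - min (μ4 i) (n4 i)
    omega
  have hb4 : ∀ t, b4 t ∈ M4.A t := fun t => (M4.A t).add_mem
      ((M4.A t).mul_mem (mn_mem (M4.xA t) fun i => Or.inl (hnν i)) (hle4 t (hg1 t)))
      ((M4.A t).mul_mem (mn_mem (M4.xA t) fun i => Or.inl (hμν i)) (hle4 t (hg2 t)))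
  refine ⟨T4, I4, hT4, hI4, M4, fun _ i => ν4 i + δ4 i, fun t _ => a4 t, fun t _ => b4 t, _,
    ⟨fun t _ => hb4 t, ?_, ?_⟩, hFn3.ov hO, hFrM3.ov hO⟩
  · intro t _
    change F = a4 t ^ p + mn (M4.x t) (fun i => ν4 i + δ4 i) * b4 t
    rw [mn_add (M4.x0 t), hδm]
    conv_lhs => rw [hNF t]
    ring
  · intro t κ _ _ φ j
    have := M4.sm t
    suffices h : ∃ v : LT φ (M4.x t), om v (fun i => ν4 i + δ4 i) (hb4 t) ≠ 0 by
      obtain ⟨v, hv⟩ := h
      exact ⟨v, hv, fun l hl => absurd rfl hl⟩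
    let ψ : M3.A (π4 t) →ₐ[k] κ := φ.comp (Subalgebra.inclusion (hO.le t))
    by_cases h0' : φ ⟨fe (π4 t), hle4 t (hfA (π4 t))⟩ = 0
    · -- on the new divisor
      obtain ⟨h1, -⟩ := hzero t κ φ (hb4 t) h0'
      have h0'' : ψ ⟨fe (π4 t), hfA (π4 t)⟩ = 0 := h0'
      let v : LT ψ (M3.x (π4 t)) := ⟨TV.zero ψ, fun o => o.elim 1 fun _ => 0, by
        rintro (_ | i) hi
        · change (0 : κ) = ψ ⟨fe (π4 t), hi⟩ * 1
          rw [h0'', zero_mul]
        · change (0 : κ) = _ * 0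
          rw [mul_zero]⟩
      obtain ⟨v4, hv1, hv2⟩ := hO.lt t κ φ v
      have hz : ∀ (m : I → ℤ) (a : N) (ha : a ∈ M.A (π4 t)),
          om v4 (tr Θ4 (fun o : Option I => o.elim 0 m)) (hle4 t ha) = 0 := by
        intro m a ha
        rw [om_tr hO v v4 hv1 hv2 _ (show a ∈ M3.A (π4 t) from ha)]
        unfold om
        rw [Fintype.sum_option]
        simp only [v, Option.elim_none, Option.elim_some, Int.cast_zero, zero_mul, mul_zero,
          Finset.sum_const_zero, add_zero]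
        rfl
      have hδs : ∑ i, (δ4 i : κ) * v4.e i = 1 := by
        rw [sum_tr hO v v4 hv2, Fintype.sum_option]
        simp [v]
      refine ⟨v4, ?_⟩
      have h2 : om v4 ν4 (hb4 t) = 0 := by
        have h3 : mn (M4.x t) (fun i => n4 i - ν4 i) * g1 t ∈ M4.A t :=
          (M4.A t).mul_mem (mn_mem (M4.xA t) fun i => Or.inl (hnν i)) (hle4 t (hg1 t))
        have h4 : mn (M4.x t) (fun i => μ4 i - ν4 i) * g2 t ∈ M4.A t :=
          (M4.A t).mul_mem (mn_mem (M4.xA t) fun i => Or.inl (hμν i)) (hle4 t (hg2 t))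
        rw [om_add v4 h3 h4 (hb4 t), om_mn (M4.xA t) (M4.x0 t) v4 (hle4 t (hg1 t))
          (fun i => Or.inl (hnν i)) (mn_mem (M4.xA t) fun i => Or.inl (hnν i)),
          om_mn (M4.xA t) (M4.x0 t) v4 (hle4 t (hg2 t))
          (fun i => Or.inl (hμν i)) (mn_mem (M4.xA t) fun i => Or.inl (hμν i)),
          hz n _ (hg1 t), hz μ _ (hg2 t), mul_zero, mul_zero, add_zero]
      have h5 : om v4 (fun i => ν4 i + δ4 i) (hb4 t) = om v4 ν4 (hb4 t) +
          φ ⟨b4 t, hb4 t⟩ * ∑ i, (δ4 i : κ) * v4.e i := by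
        unfold om
        rw [add_assoc, ← mul_add, ← Finset.sum_add_distrib]
        congr 2
        exact Finset.sum_congr rfl fun i _ => by push_cast; ring
      rw [h5, h2, hδs, zero_add, mul_one]
      exact h1
    · -- outside of the new divisor
      have hfbA : fe (π4 t) * b4 t ∈ M4.A t :=
        (M4.A t).mul_mem (hle4 t (hfA (π4 t))) (hb4 t)
      -- lifts of logarithmic tangent vectors
      have hlift : ∀ v : LT (show M.A (π4 t) →ₐ[k] κ from ψ) (M.x (π4 t)),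
          ∃ v4 : LT φ (M4.x t), ∀ (m : I → ℤ) (a : N) (ha : a ∈ M.A (π4 t)),
            om v4 (tr Θ4 (fun o : Option I => o.elim 0 m)) (hle4 t ha) = om v m ha := by
        intro v
        let v3 : LT ψ (M3.x (π4 t)) := ⟨v.D, fun o => o.elim
          (v.D.D ⟨fe (π4 t), hfA (π4 t)⟩ * (ψ ⟨fe (π4 t), hfA (π4 t)⟩)⁻¹) v.e, by
          rintro (_ | i) hi
          · change v.D.D ⟨fe (π4 t), hi⟩ = ψ ⟨fe (π4 t), hi⟩ * (v.D.D ⟨fe (π4 t), hfA (π4 t)⟩ *
              (ψ ⟨fe (π4 t), hfA (π4 t)⟩)⁻¹)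
            have h1 : ψ ⟨fe (π4 t), hi⟩ ≠ 0 := h0'
            field_simp
          · exact v.hx i hi⟩
        obtain ⟨v4, hv1, hv2⟩ := hO.lt t κ φ v3
        refine ⟨v4, fun m a ha => ?_⟩
        rw [om_tr hO v3 v4 hv1 hv2 _ (show a ∈ M3.A (π4 t) from ha)]
        unfold om
        rw [Fintype.sum_option]
        simp only [v3, Option.elim_none, Option.elim_some, Int.cast_zero, zero_mul, zero_add]
        rfl
      have hvan : ∀ (m : I → ℤ), (∀ i, ψ ⟨M.x (π4 t) i, M.xA (π4 t) i⟩ = 0 → m i = 0) →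
          ∀ i4, φ ⟨M4.x t i4, M4.xA t i4⟩ = 0 →
            tr Θ4 (fun o : Option I => o.elim 0 m) i4 = 0 := by
        intro m hm i4 hi4
        refine Finset.sum_eq_zero fun o _ => ?_
        rcases o with _ | i
        · exact mul_zero _
        · change Θ4 i4 (some i) * m i = 0
          rcases (hΘ i4 (some i)).lt_or_eq with h1 | h1
          · rw [hm i ?_, mul_zero]
            have hA1 : ∏ l ∈ Finset.univ.erase i4, M4.x t l ^ Θ4 l (some i) ∈ M4.A t :=
              (M4.A t).prod_mem fun l _ => zpow_mem_of (M4.xA t l) (Or.inl (hΘ l (some i)))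
            have hA2 : M4.x t i4 ^ (Θ4 i4 (some i) - 1) ∈ M4.A t :=
              zpow_mem_of (M4.xA t i4) (Or.inl (by omega))
            have h2 : (⟨M.x (π4 t) i, hle4 t (M.xA (π4 t) i)⟩ : M4.A t) =
                ⟨M4.x t i4, M4.xA t i4⟩ * (⟨_, hA2⟩ * ⟨_, hA1⟩) := by
              apply Subtype.ext
              change M.x (π4 t) i = M4.x t i4 * (M4.x t i4 ^ (Θ4 i4 (some i) - 1) *
                ∏ l ∈ Finset.univ.erase i4, M4.x t l ^ Θ4 l (some i))
              have h3 := hO.x t (some i)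
              change M.x (π4 t) i = _ at h3
              rw [h3, ← Finset.mul_prod_erase Finset.univ _ (Finset.mem_univ i4), ← mul_assoc,
                zpow_sub_one₀ (M4.x0 t i4)]
              have := M4.x0 t i4
              field_simp
            change φ ⟨M.x (π4 t) i, hle4 t (M.xA (π4 t) i)⟩ = 0
            rw [h2, map_mul, hi4, zero_mul]
          · rw [← h1, zero_mul]
      obtain ⟨v, hv⟩ := afin p (M4.snc t) (M4.xA t) (M4.x0 t) (hFrM3.ov hO t)
        (hle4 t (hP.yA (π4 t))) (hle4 t (hhA (π4 t))) hfbA hμ40 (fun i => rfl) (hNF t) (hWX4 t)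
        (φ := φ) (Pole := Pl hP (π4 t) ψ)
        (by
          obtain ⟨v, h1, h2⟩ := vecW hP (π4 t) ψ
          obtain ⟨v4, h3⟩ := hlift v
          exact ⟨v4, by rw [h3]; exact h1, by rw [h3]; exact h2⟩)
        (fun hpl => by
          obtain ⟨v, h1, h2⟩ := vecX hN hP (π4 t) ψ hpl
          obtain ⟨v4, h3⟩ := hlift v
          exact ⟨v4, by rw [h3]; exact h1, by rw [h3]; exact h2⟩)
        (fun hpl i hi => hvan n (fun i hi => (npl hN.n0 hP (π4 t) ψ hpl i hi).1) i hi)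
        (by
          intro _
          have h1 : (∀ i, μ4 i ≤ n4 i ∨ (M4.x t i)⁻¹ ∈ M4.A t) ∨
            (∀ i, n4 i ≤ μ4 i ∨ (M4.x t i)⁻¹ ∈ M4.A t) := hcmp true false t
          rcases h1 with h1 | h1
          · right
            intro i hi
            have h2 := (h1 i).resolve_right fun h3 =>
              ne_of_unit φ (M4.xA t i) (M4.x0 t i) h3 hi
            exact min_eq_left h2
          · left
            intro i hi
            have h2 := (h1 i).resolve_right fun h3 =>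
              ne_of_unit φ (M4.xA t i) (M4.x0 t i) h3 hi
            exact min_eq_right h2)
      refine ⟨v, fun h1 => hv ?_⟩
      have hdiff : (fun i => (ν4 i + δ4 i) - ν4 i) = δ4 := by
        funext i
        ring
      have hδA : mn (M4.x t) (fun i => (ν4 i + δ4 i) - ν4 i) ∈ M4.A t := by
        rw [hdiff, hδm]
        exact hle4 t (hfA (π4 t))
      have hmb : mn (M4.x t) (fun i => (ν4 i + δ4 i) - ν4 i) * b4 t ∈ M4.A t :=
        (M4.A t).mul_mem hδA (hb4 t)
      have h2 := om_mn (M4.xA t) (M4.x0 t) v (m := fun i => ν4 i + δ4 i) (n := ν4) (hb4 t)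
        (fun i => Or.inl (by
          have := hδ0 i
          change 0 ≤ (ν4 i + δ4 i) - ν4 i
          omega)) hδA hmb
      rw [h1, mul_zero] at h2
      rw [← h2]
      exact om_congr v hmb (by rw [hdiff, hδm])

end pencil

end Pool.Agent.KS6_21.P3
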