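import Pool.Agent.KS6_21.P3.APencil
import Pool.Agent.KS6_21.P2.Tow

/-!
The Artin-Schreier pencil as an operation on fields.
-/

set_option autoImplicit false
set_option linter.unusedVariables false
set_option linter.unusedSectionVars false

universe u

open Polynomial Pool.Agent.W558 Pool.Agent.W177.WD Pool.Agent.KS6_21.P1 Pool.Agent.W498.Tor
  Pool.Agent.TH188.WQ

namespace Pool.Agent.KS6_21.P3

section pencil

variable (p : ℕ) [Fact p.Prime] {k L : Type u} [Field k] [PerfectField k] [CharP k p] [Field L]
  [Algebra k L]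

/-- The pencil over the rational function field. -/
theorem apencil2 {G : Type} (f : L) (g : G → L) (hM : GMA p k (fun _ : Unit => f) g)
    (hf : ∀ b : L, b ^ p - b ≠ f) :
    GM p k (fun _ : Unit => (algebraMap L[X] (FractionRing L[X]) X) ^ p -
        algebraMap L[X] (FractionRing L[X]) X - algebraMap L (FractionRing L[X]) f)
      (Sum.elim (fun b => algebraMap L (FractionRing L[X]) (g b))
        (fun _ : Unit => (algebraMap L[X] (FractionRing L[X]) X) ^ p -
          algebraMap L[X] (FractionRing L[X]) X - algebraMap L (FractionRing L[X]) f)) := by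
  classical
  have hp : p.Prime := Fact.out
  have hcL : CharP L p := charP_of_injective_algebraMap (algebraMap k L).injective p
  obtain ⟨T, I, hT, hI, M, n, a, h, Γ, hN, hG, hR⟩ := hM
  have hirr : Irreducible (X ^ p - X - C f : L[X]) := wa_irr p L f hf
  have hF : Prime (X ^ p - X - C f : L[X]) := hirr.prime
  let N := FractionRing L[X]
  let Z : N := algebraMap L[X] N X
  have hZ : ∀ P : L[X], aeval Z P = algebraMap L[X] N P := by
    intro P
    have h1 : aeval Z = IsScalarTower.toAlgHom L L[X] N := by
      ext; simp [Z]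
    rw [h1]; rfl
  have htr : Transcendental L Z := by
    rw [transcendental_iff]
    intro P hP
    rw [hZ] at hP
    exact (FaithfulSMul.algebraMap_eq_zero_iff L[X] N).1 hP
  have hfr : ∀ x : N, ∃ P P' : L[X], P' ≠ 0 ∧ x * aeval Z P' = aeval Z P := by
    intro x
    obtain ⟨P, P', hP, rfl⟩ := IsFractionRing.div_surjective (A := L[X]) x
    have h0 := nonZeroDivisors.ne_zero hP
    refine ⟨P, P', h0, ?_⟩
    rw [hZ, hZ, div_mul_cancel₀ _ (alg_ne_zero h0)]
  have hQ : IsQA p Z f (FQ (k := k) hF) := by
    intro x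
    simp only [hZ]
    exact mem_FQ hF
  have hN1 : NAS p M f (n ()) (fun t => a t ()) (fun t => h t ()) :=
    ⟨hN.n0 (), fun t => hN.hA t (), fun t => hN.eq t (), fun t κ _ _ φ hpl => by
      obtain ⟨v, hv, -⟩ := hN.ln t κ φ () hpl
      exact ⟨v, hv⟩⟩
  obtain ⟨T1, I1, hT1, hI1, M1, y1, c1, μ1, Γ1, hP1, hL1, hF1⟩ :=
    wt_bun p k L N T I G M f (n ()) (fun t => a t ()) (fun t => h t ()) g Γ hN1 hR hG
      hf Z htr hfr (FQ (k := k) hF) hQ
  obtain ⟨T2, I2, hT2, hI2, M2, y2, c2, μ2, Γ2, ⟨π2, Θ2, hP2⟩, hL2, hF2, hfin⟩ :=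
    wt_ppr p k L N T I T1 I1 G M f (n ()) (fun t => a t ()) (fun t => h t ()) M1 _
      (FQ (k := k) hF) y1 c1 μ1 (fun b => algebraMap L N (g b)) Γ1 hN1 hP1 hL1 hF1
  have eF : Z ^ p - Z - algebraMap L N f = algebraMap L[X] N (X ^ p - X - C f) := by
    rw [← hZ, map_sub, map_sub, map_pow, aeval_X, aeval_C]
  exact apencil1 p M M2 π2 Θ2 f (n ()) (fun t => a t ()) (fun t => h t ()) hN1 _ _ y2 c2 μ2 hP2
    hL2 _ Γ2 hF2 hfin (by rw [eF]; exact alg_ne_zero hF.ne_zero) (FQ_total hF)

/-- **The pencil.** -/
theorem apencil3 {N : Type u} [Field N] [Algebra k N] [Algebra L N] [IsScalarTower k L N]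
    {G : Type} (f : L) (g : G → L) (hM : GMA p k (fun _ : Unit => f) g)
    (hf : ∀ b : L, b ^ p - b ≠ f) (Z : N)
    (hZ : Transcendental L Z) (hgen : IntermediateField.adjoin L {Z} = ⊤) :
    GM p k (fun _ : Unit => Z ^ p - Z - algebraMap L N f)
      (Sum.elim (fun b => algebraMap L N (g b))
        (fun _ : Unit => Z ^ p - Z - algebraMap L N f)) := by
  classical
  have hinj : Function.Injective (aeval Z : L[X] →ₐ[L] N) := transcendental_iff_injective.1 hZ
  let σ : FractionRing L[X] →ₐ[L] N := IsFractionRing.liftAlgHom hinj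
  have hσ : ∀ P : L[X], σ (algebraMap L[X] _ P) = aeval Z P := fun P =>
    IsFractionRing.lift_algebraMap (g := (aeval Z : L[X] →ₐ[L] N).toRingHom) hinj P
  let _ : Algebra (FractionRing L[X]) N := σ.toRingHom.toAlgebra
  have hsL : IsScalarTower L (FractionRing L[X]) N :=
    IsScalarTower.of_algebraMap_eq fun x => (σ.commutes x).symm
  have hsk : IsScalarTower k (FractionRing L[X]) N := IsScalarTower.of_algebraMap_eq fun x => by
    rw [IsScalarTower.algebraMap_apply k L N, IsScalarTower.algebraMap_apply L (FractionRing L[X]) N,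
      ← IsScalarTower.algebraMap_apply k L (FractionRing L[X])]
  have hsurj : Function.Surjective (algebraMap (FractionRing L[X]) N) := by
    have h1 : IntermediateField.adjoin L {Z} ≤ σ.fieldRange := by
      rw [IntermediateField.adjoin_simple_le_iff]
      exact ⟨algebraMap L[X] _ X, by
        change σ _ = _
        rw [hσ, aeval_X]⟩
    rw [hgen] at h1
    intro y
    obtain ⟨x, hx⟩ := h1 (show y ∈ (⊤ : IntermediateField L N) from trivial)
    exact ⟨x, hx⟩
  have h2 := gm_surj hsurj (apencil2 p f g hM hf)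
  have hZ' : algebraMap (FractionRing L[X]) N (algebraMap L[X] _ X) = Z := by
    change σ _ = _
    rw [hσ, aeval_X]
  have e0 : algebraMap (FractionRing L[X]) N ((algebraMap L[X] (FractionRing L[X]) X) ^ p -
      algebraMap L[X] (FractionRing L[X]) X - algebraMap L (FractionRing L[X]) f) =
      Z ^ p - Z - algebraMap L N f := by
    rw [map_sub, map_sub, map_pow, hZ', ← IsScalarTower.algebraMap_apply L (FractionRing L[X]) N]
  have e1 : (fun _ : Unit => algebraMap (FractionRing L[X]) N
      ((algebraMap L[X] (FractionRing L[X]) X) ^ p -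
      algebraMap L[X] (FractionRing L[X]) X - algebraMap L (FractionRing L[X]) f)) =
      fun _ => Z ^ p - Z - algebraMap L N f := funext fun _ => e0
  have e2 : (fun b => algebraMap (FractionRing L[X]) N
      ((Sum.elim (fun b => algebraMap L (FractionRing L[X]) (g b))
        (fun _ : Unit => (algebraMap L[X] (FractionRing L[X]) X) ^ p -
          algebraMap L[X] (FractionRing L[X]) X -
          algebraMap L (FractionRing L[X]) f) : G ⊕ Unit → FractionRing L[X]) b)) =
      Sum.elim (fun b => algebraMap L N (g b))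
        (fun _ : Unit => Z ^ p - Z - algebraMap L N f) := by
    funext b
    rcases b with b | b
    · exact (IsScalarTower.algebraMap_apply L (FractionRing L[X]) N _).symm
    · exact e0
  rw [e1, e2] at h2
  exact h2

end pencil

end Pool.Agent.KS6_21.P3
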