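import Pool.Agent.KS6_21.P3.AChart

/-!
Logarithmic tangent vectors for the divisor `Z ^ p - Z = f`.
-/

set_option autoImplicit false
set_option linter.unusedVariables false
set_option linter.unusedSectionVars false

universe u

open Polynomial Pool.Agent.W558 Pool.Agent.W177.WD Pool.Agent.KS6_21.P1 Pool.Agent.KS6_21.P2
  Pool.Agent.TH214

namespace Pool.Agent.KS6_21.P3

section vec

variable {p : ℕ} [Fact p.Prime] {k L N : Type u} [Field k] [CharP k p] [Field L] [Field N]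
  [Algebra k L] [Algebra k N] [Algebra L N] [IsScalarTower k L N] {T0 I0 T I : Type}
  [Fintype I0] [Fintype I] {B : LM (⊥ : Subalgebra k L) ⊤ T0 I0}
  {M : LM (⊥ : Subalgebra k N) ⊤ T I} {π : T → T0} {Θ : I → I0 → ℤ} {F : N} {Q : Subalgebra k N}
  {y : T → N} {h0 : T0 → L} {n0 : I0 → ℤ} {c μ : I → ℤ}

/-- Restriction of a logarithmic tangent vector to a part of the boundary. -/
def lt_sub {A : Subalgebra k N} {κ : Type u} [Field κ] [Algebra k κ] {φ : A →ₐ[k] κ} {y : N}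
    {x : I → N} (v : LT φ (ox y x)) : LT φ x :=
  ⟨v.D, fun i => v.e (some i), fun i hi => v.hx (some i) hi⟩

lemma ce_sum (hP : PAT p B M π Θ F Q y h0 n0 c μ) {κ : Type u} [Field κ] [Algebra k κ]
    (e : I → κ) : ∑ i, ((c i + p * μ i : ℤ) : κ) * e i =
      ∑ i0, (n0 i0 : κ) * ∑ i, (Θ i i0 : κ) * e i := by
  have h1 : ∀ i, ((c i + p * μ i : ℤ) : κ) * e i = ∑ i0, (n0 i0 : κ) * ((Θ i i0 : κ) * e i) := by
    intro i
    have h2 : c i + p * μ i = ∑ i0, Θ i i0 * n0 i0 := by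
      rw [hP.ce i]
      ring
    rw [h2]
    push_cast
    rw [Finset.sum_mul]
    exact Finset.sum_congr rfl fun i0 _ => by ring
  rw [Finset.sum_congr rfl fun i _ => h1 i, Finset.sum_comm]
  exact Finset.sum_congr rfl fun i0 _ => by rw [Finset.mul_sum]

lemma vecW (hP : PAT p B M π Θ F Q y h0 n0 c μ) (t : T) {κ : Type u} [Field κ] [Algebra k κ]
    (φ : M.A t →ₐ[k] κ) : ∃ v : LT φ (M.x t), om v μ (hP.yA t) ≠ 0 ∧
      om v (fun i => c i + p * μ i) (hP.ov.le t _ (hP.hA (π t))) = 0 := by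
  by_cases hy : (y t)⁻¹ ∈ M.A t
  · obtain ⟨v, h1, h2, h3⟩ := hP.vl t κ φ
    refine ⟨lt_sub v, ?_, ?_⟩
    · have h4 : v.D.D ⟨y t, hP.yA t⟩ = φ ⟨y t, hP.yA t⟩ * v.e none := v.hx none (hP.yA t)
      have h5 : om (lt_sub v) μ (hP.yA t) = φ ⟨y t, hP.yA t⟩ := by
        unfold om
        change v.D.D ⟨y t, hP.yA t⟩ + φ ⟨y t, hP.yA t⟩ * ∑ i, (μ i : κ) * v.e (some i) = _
        rw [h4, ← mul_add, h3, mul_one]
      rw [h5]
      exact ne_of_unit φ (hP.yA t) (hP.y0 t) hy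
    · unfold om
      change v.D.D ⟨algebraMap L N (h0 (π t)), _⟩ + _ * ∑ i, ((c i + p * μ i : ℤ) : κ) *
        v.e (some i) = 0
      rw [h1 _ (hP.hA (π t)), ce_sum hP, zero_add]
      simp only [h2, mul_zero, Finset.sum_const_zero]
  · rcases hP.vt t κ φ with h | ⟨D, h1, h2, h3⟩
    · exact absurd h hy
    · refine ⟨⟨D, fun _ => 0, fun i hi => by rw [h2 i, mul_zero]⟩, ?_, ?_⟩
      · unfold om
        simp only [mul_zero, Finset.sum_const_zero, add_zero]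
        exact h1
      · unfold om
        simp only [mul_zero, Finset.sum_const_zero, add_zero]
        exact h3 _ (hP.hA (π t))

/-- The point is on the poles of the function of the base. -/
def Pl (hP : PAT p B M π Θ F Q y h0 n0 c μ) (t : T) {κ : Type u} [Field κ] [Algebra k κ]
    (φ : M.A t →ₐ[k] κ) : Prop :=
  ∃ i0, n0 i0 < 0 ∧ φ ⟨algebraMap L N (B.x (π t) i0), hP.ov.le t _ (B.xA (π t) i0)⟩ = 0

lemma vecX {f : L} {a0 : T0 → L} (hN : NAS p B f n0 a0 h0) (hP : PAT p B M π Θ F Q y h0 n0 c μ)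
    (t : T) {κ : Type u} [Field κ] [Algebra k κ] (φ : M.A t →ₐ[k] κ) (hpl : Pl hP t φ) :
    ∃ v : LT φ (M.x t), om v μ (hP.yA t) = 0 ∧
      om v (fun i => c i + p * μ i) (hP.ov.le t _ (hP.hA (π t))) ≠ 0 := by
  obtain ⟨v0, hv0⟩ := hN.ln (π t) κ (φ.comp (ci (hP.ov.le t))) hpl
  obtain ⟨v, h1, h2, h3⟩ := hP.lf t κ φ v0
  refine ⟨lt_sub v, ?_, ?_⟩
  · have h4 : v.D.D ⟨y t, hP.yA t⟩ = φ ⟨y t, hP.yA t⟩ * v.e none := v.hx none (hP.yA t)
    unfold om
    change v.D.D ⟨y t, hP.yA t⟩ + φ ⟨y t, hP.yA t⟩ * ∑ i, (μ i : κ) * v.e (some i) = 0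
    rw [h4, ← mul_add, h3, mul_zero]
  · have h5 : om (lt_sub v) (fun i => c i + p * μ i) (hP.ov.le t _ (hP.hA (π t))) =
        om v0 n0 (hN.hA (π t)) := by
      unfold om
      change v.D.D ⟨algebraMap L N (h0 (π t)), _⟩ + _ * ∑ i, ((c i + p * μ i : ℤ) : κ) *
        v.e (some i) = _
      rw [h1 _ (hP.hA (π t)), ce_sum hP]
      simp only [h2]
      rfl
    rw [h5]
    exact hv0

/-- The exponents at points which are not on the poles. -/
lemma npl (hn0 : ∀ i, n0 i ≤ 0) (hP : PAT p B M π Θ F Q y h0 n0 c μ)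
    (t : T) {κ : Type u} [Field κ] [Algebra k κ] (φ : M.A t →ₐ[k] κ) (hpl : ¬ Pl hP t φ) (i : I)
    (hi : φ ⟨M.x t i, M.xA t i⟩ = 0) :
    c i + p * μ i = 0 ∧ (μ i = 0 ∨ (0 < c i ∧ (y t)⁻¹ ∈ M.A t)) := by
  classical
  have hvan : ∀ i0, 0 < Θ i i0 →
      φ ⟨algebraMap L N (B.x (π t) i0), hP.ov.le t _ (B.xA (π t) i0)⟩ = 0 := by
    intro i0 h1
    have hA1 : ∏ l ∈ Finset.univ.erase i, M.x t l ^ Θ l i0 ∈ M.A t :=
      (M.A t).prod_mem fun l _ => zpow_mem_of (M.xA t l) (Or.inl (hP.ov.Θ0 l i0))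
    have hA2 : M.x t i ^ (Θ i i0 - 1) ∈ M.A t := zpow_mem_of (M.xA t i) (Or.inl (by omega))
    have h2 : (⟨algebraMap L N (B.x (π t) i0), hP.ov.le t _ (B.xA (π t) i0)⟩ : M.A t) =
        ⟨M.x t i, M.xA t i⟩ * (⟨_, hA2⟩ * ⟨_, hA1⟩) := by
      apply Subtype.ext
      change algebraMap L N (B.x (π t) i0) = M.x t i * (M.x t i ^ (Θ i i0 - 1) *
        ∏ l ∈ Finset.univ.erase i, M.x t l ^ Θ l i0)
      rw [hP.ov.x t i0, ← Finset.mul_prod_erase Finset.univ _ (Finset.mem_univ i), ← mul_assoc,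
        zpow_sub_one₀ (M.x0 t i)]
      have := M.x0 t i
      field_simp
    rw [h2, map_mul, hi, zero_mul]
  have hz : ∀ i0, Θ i i0 * n0 i0 = 0 := by
    intro i0
    rcases (hP.ov.Θ0 i i0).lt_or_eq with h1 | h1
    · have h2 : ¬ n0 i0 < 0 := fun h3 => hpl ⟨i0, h3, hvan i0 h1⟩
      have h3 : n0 i0 = 0 := le_antisymm (hn0 i0) (not_lt.1 h2)
      rw [h3, mul_zero]
    · rw [← h1, zero_mul]
  refine ⟨?_, ?_⟩
  · rw [hP.ce i, Finset.sum_eq_zero fun i0 _ => hz i0]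
    ring
  · by_cases hμ : μ i = 0
    · exact Or.inl hμ
    · right
      have h1 : μ i < 0 := lt_of_le_of_ne (hP.m0 i) hμ
      have h2 : (M.x t i)⁻¹ ∉ M.A t := fun h3 => ne_of_unit φ (M.xA t i) (M.x0 t i) h3 hi
      rcases hP.ri t i h2 (Or.inl h1) with ⟨i0, h3, h4⟩ | h3
      · exact absurd ⟨i0, h3, hvan i0 h4⟩ hpl
      · exact h3

/-- The exponents of the function of the base. -/
lemma ce_le (hn0 : ∀ i, n0 i ≤ 0) (hP : PAT p B M π Θ F Q y h0 n0 c μ) (i : I) :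
    c i + p * μ i ≤ 0 := by
  have h1 : c i + p * μ i = ∑ i0, Θ i i0 * n0 i0 := by
    rw [hP.ce i]
    ring
  rw [h1]
  exact Finset.sum_nonpos fun i0 _ => mul_nonpos_of_nonneg_of_nonpos (hP.ov.Θ0 i i0) (hn0 i0)

/-- The function in terms of `W = x ^ μ * y`. -/
lemma eq_WX (hP : PAT p B M π Θ F Q y h0 n0 c μ) (t : T) :
    F = (mn (M.x t) μ * y t) ^ p - mn (M.x t) μ * y t -
      mn (M.x t) (fun i => c i + p * μ i) * algebraMap L N (h0 (π t)) := by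
  have hx0 := M.x0 t
  have e1 : mn (M.x t) (fun i => (p : ℤ) * μ i) = mn (M.x t) μ ^ p := mn_mul _ _ _
  have e2 : mn (M.x t) (fun i => c i + p * μ i) = mn (M.x t) c * mn (M.x t) μ ^ p := by
    rw [mn_add hx0, e1]
  have e3 : mn (M.x t) μ = mn (M.x t) μ ^ p * mn (M.x t) (fun i => -((p : ℤ) - 1) * μ i) := by
    rw [← e1, ← mn_add hx0]
    unfold mn
    exact Finset.prod_congr rfl fun i _ => by congr 1; ring
  have h1 := hP.eq t
  rw [h1]
  change mn (M.x t) (fun i => (p : ℤ) * μ i) *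
    (y t ^ p - mn (M.x t) (fun i => -((p : ℤ) - 1) * μ i) * y t - mn (M.x t) c *
      algebraMap L N (h0 (π t))) = _
  rw [e1, e2]
  conv_rhs => rw [mul_pow]
  linear_combination y t * e3

end vec

end Pool.Agent.KS6_21.P3
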