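import Pool.Agent.KS6_21.P3.Form

/-!
The pencil for the functions `b ^ p - b`.
-/

set_option autoImplicit false
set_option linter.unusedVariables false
set_option linter.unusedSectionVars false

universe u

open Polynomial Pool.Agent.W177.WD Pool.Agent.KS6_21.P1 Pool.Agent.KS6_21.P2
  Pool.Agent.TH188.WQ Pool.Agent.TH214 Pool.Agent.N98 Pool.Agent.N762.RC Pool.Agent.N762.RC2
  Pool.Agent.N762.FP Pool.Agent.TH214.V

open Pool.Agent.W558 hiding Ovr ci

namespace Pool.Agent.KS6_21.P3

section line

variable (p : ℕ) [Fact p.Prime] {k L N : Type u} [Field k] [PerfectField k] [CharP k p]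
  [Field L] [Field N] [Algebra k L] [Algebra k N] [Algebra L N] [IsScalarTower k L N]

/-- The function `z ^ p - z` of a new variable. -/
theorem gm_as0 {G ι0 : Type} {f0 : ι0 → L} (g : G → L) (hM : GM p k f0 g)
    (z : N) (hz : Transcendental L z) (hgen : IntermediateField.adjoin L {z} = ⊤) :
    GM p k (fun _ : Option Empty => z ^ p - z)
      (Sum.elim (fun c => algebraMap L N (g c)) fun _ : Unit => z ^ p - z) := by
  classical
  have hp : p.Prime := Fact.out
  obtain ⟨T0, I0, hT0, hI0, B, n0, a0, h0, Γ0, hN0, hG0, hR0⟩ := hM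
  obtain ⟨T, I, hT, hI, M, π, Θ, γ, hLn, hFr, -⟩ := exists_line B hR0 z hz hgen
    (C := Empty) (fun c => c.elim) (fun c => c.elim)
  let em : L →+* N := algebraMap L N
  choose wz hwz0 hwzA hwzA' hwz using hLn.fz
  have hF0 : z ^ p - z ≠ 0 := by
    intro h1
    have h2 : aeval z (X ^ p - X : L[X]) = 0 := by
      rw [map_sub, map_pow, aeval_X]
      exact h1
    have h3 : (X ^ p - X : L[X]) = 0 := by
      by_contra h4
      exact hz ⟨_, h4, h2⟩
    have h4 := congrArg (fun q : L[X] => q.coeff 1) h3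
    simp only [coeff_sub, coeff_X_pow, coeff_X_one, coeff_zero] at h4
    rw [if_neg (Ne.symm hp.one_lt.ne')] at h4
    simp at h4
  have hNF : NFJ p M (fun _ : Option Empty => z ^ p - z) (fun _ => γ) (fun _ _ => z)
      (fun t _ => -wz t) := by
    refine ⟨fun t _ => (M.A t).neg_mem (hwzA t), fun t _ => ?_, fun t κ _ _ φ j => ?_⟩
    · change z ^ p - z = z ^ p + mn (M.x t) γ * -wz t
      conv_lhs => rw [sub_eq_add_neg]
      congr 1
      conv_lhs => rw [hwz t]
      ring
    · let v0 : LT (φ.comp (ci (hLn.ov.le t))) (B.x (π t)) :=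
        ⟨TV.zero _, fun _ => 0, fun i hi => (mul_zero _).symm⟩
      obtain ⟨v, hv1, hv2, hv3⟩ := hLn.lf t κ φ v0 1
      refine ⟨v, ?_, fun l hl => absurd (Subsingleton.elim l j) hl⟩
      have h1 := hv3 (wz t) (hwzA t) (hwz0 t) (hwzA' t) (hwz t)
      have h2 : (⟨-wz t, (M.A t).neg_mem (hwzA t)⟩ : M.A t) = -⟨wz t, hwzA t⟩ := rfl
      unfold om
      rw [h2, map_neg, map_neg]
      intro h3
      apply ne_of_unit φ (hwzA t) (hwz0 t) (hwzA' t)
      linear_combination -h1 - h3
  have h1 := core2 p M (fun _ : Option Empty => z ^ p - z) hF0 (fun _ => γ) (fun _ _ => z)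
    (fun t _ => -wz t) hNF hFr (fun c => em (g c)) (fun c => tr Θ (Γ0 c)) (by
      intro c t
      obtain ⟨w, hw0, hw, hw', hwf⟩ := hG0 c (π t)
      refine ⟨em w, (map_ne_zero em).2 hw0, hLn.ov.le t _ hw, ?_, ?_⟩
      · rw [← map_inv₀]
        exact hLn.ov.le t _ hw'
      · change em (g c) = em w * mn (M.x t) (tr Θ (Γ0 c))
        rw [← mn_pull hLn.ov, hwf]
        exact map_mul _ _ _) γ wz hwzA (fun t => by
      change z = _
      conv_lhs => rw [hwz t]
      ring) (fun t => Or.inr ⟨hwz0 t, fun κ _ _ φ h0 =>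
        absurd h0 (ne_of_unit φ (hwzA t) (hwz0 t) (hwzA' t))⟩)
  exact h1

end line

section pencil

variable (p : ℕ) [Fact p.Prime] {k L K : Type u} [Field k] [PerfectField k] [CharP k p] [Field L]
  [Field K] [Algebra k L] [Algebra L K] [Algebra k K] [IsScalarTower k L K] {P : Set L}

/-- Models for the boundary functions. -/
lemma gm_of_gma {G ι : Type} {f : ι → L} {g : G → L} (h : GMA p k f g) :
    GM p k (fun e : Empty => (e.elim : L)) g := by
  obtain ⟨T, I, hT, hI, M, n, a, h, Γ, hN, hG, hR⟩ := h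
  exact ⟨T, I, hT, hI, M, fun e => e.elim, fun _ e => e.elim, fun _ e => e.elim, Γ,
    ⟨fun _ e => e.elim, fun _ e => e.elim, fun _ _ _ _ _ e => e.elim⟩, hG, hR⟩

/-- Pencils. -/
theorem ma_pencil' {f : L} (hP : Ma p k P f) (Z : K)
    (hZ : Transcendental L Z) (hgen : IntermediateField.adjoin L {Z} = ⊤) :
    Md p k (insert (Z ^ p - Z - algebraMap L K f) (algebraMap L K '' P))
      (fun _ : Unit => Z ^ p - Z - algebraMap L K f) := by
  classical
  have hcK : CharP K p := charP_of_injective_algebraMap (algebraMap k K).injective p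
  by_cases hf : ∀ b : L, b ^ p - b ≠ f
  · exact ma_pencil p hP hf Z hZ hgen
  push Not at hf
  obtain ⟨b0, hb0'⟩ := hf
  have hw : Transcendental L (Z - algebraMap L K b0) := by
    intro h
    apply hZ
    have h1 := h.add (isAlgebraic_algebraMap b0)
    rwa [sub_add_cancel] at h1
  have hgw : IntermediateField.adjoin L {Z - algebraMap L K b0} = ⊤ := by
    rw [eq_top_iff, ← hgen, IntermediateField.adjoin_le_iff, Set.singleton_subset_iff]
    have h1 := add_mem (IntermediateField.mem_adjoin_simple_self L (Z - algebraMap L K b0))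
      (IntermediateField.algebraMap_mem (IntermediateField.adjoin L {Z - algebraMap L K b0}) b0)
    rwa [sub_add_cancel] at h1
  have hF : (Z - algebraMap L K b0) ^ p - (Z - algebraMap L K b0) =
      Z ^ p - Z - algebraMap L K f := by
    rw [sub_pow_char, ← hb0', map_sub, map_pow]
    ring
  intro B _ b hb hb0
  have hc1 : ∀ i : {i : B // b i ∈ algebraMap L K '' P}, ∃ a ∈ P, algebraMap L K a = b i :=
    fun i => i.2
  choose a ha hba using hc1
  have h1 := gm_as0 p a (gm_of_gma p (hP _ a ha fun i h => hb0 i (by rw [← hba, h, map_zero])))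
    (Z - algebraMap L K b0) hw hgw
  rw [hF] at h1
  refine gm_sub (h1.reindex (fun _ : Unit => none) (fun _ _ _ => rfl) id) b ?_
  intro T I _ _ M hFr hM i
  by_cases h : b i ∈ algebraMap L K '' P
  · have h4 := hM (Sum.inl ⟨i, h⟩)
    simp only [Function.comp_apply, id, Sum.elim_inl, hba] at h4
    exact h4
  · have h5 : b i = Z ^ p - Z - algebraMap L K f := (hb i).resolve_right h
    have h4 := hM (Sum.inr ())
    rw [h5]
    exact h4

end pencil

section mak

variable (p : ℕ) [Fact p.Prime] {k K : Type u} [Field k] [PerfectField k] [CharP k p] [Field K]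
  [Algebra k K]

lemma mak_const {c : K} (hc : c ∈ (⊥ : IntermediateField k K)) :
    MaK p (⊥ : IntermediateField k K) ((⊥ : IntermediateField k K) : Set K) c := by
  obtain ⟨a, rfl⟩ := IntermediateField.mem_bot.1 hc
  refine ⟨subset_rfl, hc, k, inferInstance, inferInstance, Algebra.ofId k K, a, ?_, rfl, ?_⟩
  · ext x
    constructor
    · rintro ⟨y, rfl⟩
      exact IntermediateField.algebraMap_mem _ y
    · intro hx
      obtain ⟨y, rfl⟩ := IntermediateField.mem_bot.1 hx
      exact ⟨y, rfl⟩
  · intro B _ b hb hb0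
    obtain ⟨T, I, hT, hI, M, n, a', h, Γ, hN, hG, hR⟩ := md_pt p Set.univ B b
      (fun _ => Set.mem_univ _) hb0
    refine ⟨T, I, hT, hI, M, fun _ _ => 0, fun _ _ => 0, fun _ _ => a, Γ,
      ⟨fun _ _ => le_rfl, fun t _ => Subalgebra.algebraMap_mem _ a, fun t _ => ?_,
        fun t κ _ _ φ j hj => ?_⟩, hG, hR⟩
    · simp [zero_pow (Fact.out : p.Prime).ne_zero]
    · obtain ⟨i, hi, -⟩ := hj
      exact absurd hi (lt_irrefl _)

/-- The pencil. -/
lemma mak_pencil' {A : IntermediateField k K} {P : Set K} {f : K} (h : MaK p A P f)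
    (w : K) (hw : Transcendental A w) :
    MdK p (A ⊔ IntermediateField.adjoin k {w}) (insert (w ^ p - w - f) P) (w ^ p - w - f) := by
  obtain ⟨hPA, hfA, L, _, _, j, f', hj, hjf, hM⟩ := h
  have hwm : w ∈ A ⊔ IntermediateField.adjoin k {w} :=
    (le_sup_right : IntermediateField.adjoin k {w} ≤ _)
      (IntermediateField.mem_adjoin_simple_self k w)
  refine ⟨?_, ?_⟩
  · rintro x (rfl | hx)
    · exact sub_mem (sub_mem (pow_mem hwm _) hwm) ((le_sup_left : A ≤ _) hfA)
    · exact (le_sup_left : A ≤ _) (hPA hx)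
  let _ : Algebra L K := j.toRingHom.toAlgebra
  have : IsScalarTower k L K := IsScalarTower.of_algebraMap_eq fun x => (j.commutes x).symm
  have hwL : Transcendental L w := transc_of A hj hw
  let N := IntermediateField.adjoin L {w}
  let w' : N := ⟨w, IntermediateField.mem_adjoin_simple_self L w⟩
  have hw' : Transcendental L w' := (transcendental_algebraMap_iff (algebraMap N K).injective).1 hwL
  have h1 := ma_pencil' p hM w' hw' (adj_top w)
  let j' : N →ₐ[k] K := N.val.restrictScalars k
  have hval : j' (w' ^ p - w' - algebraMap L N f') = w ^ p - w - f := by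
    rw [← hjf]
    rfl
  refine ⟨N, inferInstance, inferInstance, j', w' ^ p - w' - algebraMap L N f', ?_, hval,
    h1.mono ?_⟩
  · have h2 : (IsScalarTower.toAlgHom k L K).fieldRange = A := hj
    rw [← h2, ← range_adjoin w]
    ext x
    constructor
    · rintro ⟨y, rfl⟩
      exact y.2
    · intro hx
      exact ⟨⟨x, hx⟩, rfl⟩
  · rintro x (hx | hx)
    · refine Or.inl ?_
      apply j'.toRingHom.injective
      exact Eq.trans hx hval.symm
    · have hx' : (x : K) ∈ j.fieldRange := by
        rw [hj]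
        exact hPA hx
      obtain ⟨y, hy⟩ := hx'
      have hy' : j y = x := hy
      refine Or.inr ⟨y, ?_, Subtype.ext hy⟩
      change j y ∈ P
      rw [hy']
      exact hx

end mak

end Pool.Agent.KS6_21.P3
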