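import Pool.Agent.KS6_21.P3.Ma

/-!
Composita of independent subfields; the internal form of the properties `Ma` and `Md`.
-/

set_option autoImplicit false
set_option linter.unusedVariables false
set_option linter.unusedSectionVars false

universe u

open Polynomial Pool.Agent.W177.WD Pool.Agent.KS6_21.P1 Pool.Agent.KS6_21.P2
  Pool.Agent.TH188.WQ Pool.Agent.TH214 Pool.Agent.N98 Pool.Agent.N762.RC Pool.Agent.N762.RC2
  Pool.Agent.N762.FP Pool.Agent.TH214.V

open Pool.Agent.W558 hiding Ovr ci

namespace Pool.Agent.KS6_21.P3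

section comp

variable {k K : Type u} [Field k] [Field K] [Algebra k K]

/-- The compositum of two independent subfields. -/
lemma comp_field {A C : IntermediateField k K} {L1 L2 : Type u} [Field L1] [Field L2]
    [Algebra k L1] [Algebra k L2] (j1 : L1 →ₐ[k] K) (hj1 : j1.fieldRange = A)
    (j2 : L2 →ₐ[k] K) (hj2 : j2.fieldRange = C)
    (hinj : Function.Injective (Algebra.TensorProduct.productMap A.val C.val)) :
    ∃ (i1 : L1 →ₐ[k] (A ⊔ C : IntermediateField k K))
      (i2 : L2 →ₐ[k] (A ⊔ C : IntermediateField k K)),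
      (∀ x, ((i1 x : (A ⊔ C : IntermediateField k K)) : K) = j1 x) ∧
      (∀ x, ((i2 x : (A ⊔ C : IntermediateField k K)) : K) = j2 x) ∧
      Function.Injective (Algebra.TensorProduct.productMap i1 i2) ∧
      IntermediateField.adjoin k (Set.range i1 ∪ Set.range i2) = ⊤ := by
  have hA : ∀ x, j1 x ∈ A := fun x => by
    rw [← hj1]
    exact ⟨x, rfl⟩
  have hC : ∀ x, j2 x ∈ C := fun x => by
    rw [← hj2]
    exact ⟨x, rfl⟩
  have h1 : ∀ x, j1 x ∈ (A ⊔ C).toSubalgebra := fun x => (le_sup_left : A ≤ A ⊔ C) (hA x)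
  have h2 : ∀ x, j2 x ∈ (A ⊔ C).toSubalgebra := fun x => (le_sup_right : C ≤ A ⊔ C) (hC x)
  let i1 : L1 →ₐ[k] (A ⊔ C : IntermediateField k K) := j1.codRestrict (A ⊔ C).toSubalgebra h1
  let i2 : L2 →ₐ[k] (A ⊔ C : IntermediateField k K) := j2.codRestrict (A ⊔ C).toSubalgebra h2
  refine ⟨i1, i2, fun x => rfl, fun x => rfl, ?_, ?_⟩
  · let jA : L1 →ₐ[k] A := j1.codRestrict A.toSubalgebra hA
    let jC : L2 →ₐ[k] C := j2.codRestrict C.toSubalgebra hC
    have hjA : Function.Injective jA := jA.toRingHom.injective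
    have hjC : Function.Injective jC := jC.toRingHom.injective
    have h4 : ((A ⊔ C).val).comp (Algebra.TensorProduct.productMap i1 i2) =
        (Algebra.TensorProduct.productMap A.val C.val).comp
          (Algebra.TensorProduct.map jA jC) := by
      apply Algebra.TensorProduct.ext
      · ext x
        simp only [AlgHom.comp_apply, Algebra.TensorProduct.includeLeft_apply,
          Algebra.TensorProduct.productMap_apply_tmul, map_one, mul_one,
          Algebra.TensorProduct.map_tmul]
        rfl
      · ext x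
        simp only [AlgHom.comp_apply, Algebra.TensorProduct.includeRight_apply,
          Algebra.TensorProduct.productMap_apply_tmul, map_one, one_mul,
          Algebra.TensorProduct.map_tmul, AlgHom.restrictScalars_apply]
        rfl
    have h5 : Function.Injective ((Algebra.TensorProduct.productMap A.val C.val).comp
        (Algebra.TensorProduct.map jA jC)) := by
      rw [AlgHom.coe_comp]
      refine hinj.comp ?_
      exact TensorProduct.map_injective_of_flat_flat jA.toLinearMap jC.toLinearMap hjA hjC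
    rw [← h4, AlgHom.coe_comp] at h5
    exact h5.of_comp
  · apply IntermediateField.lift_injective
    rw [IntermediateField.lift_adjoin, IntermediateField.lift_top, Set.image_union]
    have h6 : (Subtype.val '' Set.range i1 : Set K) = A := by
      ext x
      constructor
      · rintro ⟨_, ⟨y, rfl⟩, rfl⟩
        exact hA y
      · intro hx
        have hx' : x ∈ A := hx
        rw [← hj1] at hx'
        obtain ⟨y, hy⟩ := hx'
        exact ⟨i1 y, ⟨y, rfl⟩, hy⟩
    have h7 : (Subtype.val '' Set.range i2 : Set K) = C := by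
      ext x
      constructor
      · rintro ⟨_, ⟨y, rfl⟩, rfl⟩
        exact hC y
      · intro hx
        have hx' : x ∈ C := hx
        rw [← hj2] at hx'
        obtain ⟨y, hy⟩ := hx'
        exact ⟨i2 y, ⟨y, rfl⟩, hy⟩
    rw [h6, h7]
    rfl

end comp

section mak

variable (p : ℕ) [Fact p.Prime] {k K : Type u} [Field k] [PerfectField k] [CharP k p] [Field K]
  [Algebra k K]

/-- The property of `Ma` for a subfield of `K`. -/
def MaK (A : IntermediateField k K) (P : Set K) (f : K) : Prop :=
  P ⊆ A ∧ f ∈ A ∧ ∃ (L : Type u) (_ : Field L) (_ : Algebra k L) (j : L →ₐ[k] K) (f' : L),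
    j.fieldRange = A ∧ j f' = f ∧ Ma p k (j ⁻¹' P) f'

lemma mak_surf (E : IntermediateField k K) (h1 : Algebra.trdeg k E = 2) (h2 : HasModel k E) {f : K}
    (hf : f ∈ E) : MaK p E (E : Set K) f :=
  ⟨subset_rfl, hf, E, inferInstance, inferInstance, E.val, ⟨f, hf⟩,
    IntermediateField.fieldRange_val _, rfl, (ma_surf p h1 h2 _).mono (Set.subset_univ _)⟩

lemma mak_add {A C : IntermediateField k K} {P Q : Set K} {f g : K} (h1 : MaK p A P f)
    (h2 : MaK p C Q g)
    (hinj : Function.Injective (Algebra.TensorProduct.productMap A.val C.val)) :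
    MaK p (A ⊔ C) (P ∪ Q) (f + g) := by
  obtain ⟨hPA, hfA, L1, _, _, j1, f', hj1, hjf, hM1⟩ := h1
  obtain ⟨hQC, hgC, L2, _, _, j2, g', hj2, hjg, hM2⟩ := h2
  obtain ⟨i1, i2, hi1, hi2, hinj', htop⟩ := comp_field j1 hj1 j2 hj2 hinj
  refine ⟨Set.union_subset (hPA.trans (le_sup_left : A ≤ A ⊔ C))
    (hQC.trans (le_sup_right : C ≤ A ⊔ C)), add_mem ((le_sup_left : A ≤ A ⊔ C) hfA)
    ((le_sup_right : C ≤ A ⊔ C) hgC), (A ⊔ C : IntermediateField k K), inferInstance,
    inferInstance, (A ⊔ C).val, i1 f' + i2 g', IntermediateField.fieldRange_val _, ?_,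
    (ma_add i1 i2 hinj' htop hM1 hM2).mono ?_⟩
  · change ((i1 f' : (A ⊔ C : IntermediateField k K)) : K) + (i2 g' : _) = f + g
    rw [hi1, hi2, hjf, hjg]
  · rintro x (hx | hx)
    · have hx' : (x : K) ∈ j1.fieldRange := by
        rw [hj1]
        exact hPA hx
      obtain ⟨y, hy⟩ := hx'
      have hy' : j1 y = x := hy
      refine Or.inl ⟨y, ?_, Subtype.ext ((hi1 y).trans hy)⟩
      change j1 y ∈ P
      rw [hy']
      exact hx
    · have hx' : (x : K) ∈ j2.fieldRange := by
        rw [hj2]
        exact hQC hx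
      obtain ⟨y, hy⟩ := hx'
      have hy' : j2 y = x := hy
      refine Or.inr ⟨y, ?_, Subtype.ext ((hi2 y).trans hy)⟩
      change j2 y ∈ Q
      rw [hy']
      exact hx

/-- The pencil. -/
lemma mak_pencil {A : IntermediateField k K} {P : Set K} {f : K} (h : MaK p A P f)
    (hf : ∀ b ∈ A, b ^ p - b ≠ f) (w : K) (hw : Transcendental A w) :
    MdK p (A ⊔ IntermediateField.adjoin k {w}) (insert (w ^ p - w - f) P) (w ^ p - w - f) := by
  obtain ⟨hPA, hfA, L, _, _, j, f', hj, hjf, hM⟩ := h
  have hwm : w ∈ A ⊔ IntermediateField.adjoin k {w} :=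
    (le_sup_right : IntermediateField.adjoin k {w} ≤ _)
      (IntermediateField.mem_adjoin_simple_self k w)
  refine ⟨?_, ?_⟩
  · rintro x (rfl | hx)
    · exact sub_mem (sub_mem (pow_mem hwm _) hwm) ((le_sup_left : A ≤ _) hfA)
    · exact (le_sup_left : A ≤ _) (hPA hx)
  let _ : Algebra L K := j.toRingHom.toAlgebra
  have : IsScalarTower k L K := IsScalarTower.of_algebraMap_eq fun x => (j.commutes x).symm
  have hwL : Transcendental L w := transc_of A hj hw
  let N := IntermediateField.adjoin L {w}
  let w' : N := ⟨w, IntermediateField.mem_adjoin_simple_self L w⟩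
  have hw' : Transcendental L w' := (transcendental_algebraMap_iff (algebraMap N K).injective).1 hwL
  have h1 := ma_pencil p hM (fun b hb => hf (j b) (by
    rw [← hj]
    exact ⟨b, rfl⟩) (by rw [← map_pow, ← map_sub, hb, hjf])) w' hw' (adj_top w)
  let j' : N →ₐ[k] K := N.val.restrictScalars k
  have hval : j' (w' ^ p - w' - algebraMap L N f') = w ^ p - w - f := by
    rw [← hjf]
    rfl
  refine ⟨N, inferInstance, inferInstance, j', w' ^ p - w' - algebraMap L N f', ?_, hval,
    h1.mono ?_⟩
  · have h2 : (IsScalarTower.toAlgHom k L K).fieldRange = A := hj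
    rw [← h2, ← range_adjoin w]
    ext x
    constructor
    · rintro ⟨y, rfl⟩
      exact y.2
    · intro hx
      exact ⟨⟨x, hx⟩, rfl⟩
  · rintro x (hx | hx)
    · refine Or.inl ?_
      apply j'.toRingHom.injective
      exact Eq.trans hx hval.symm
    · have hx' : (x : K) ∈ j.fieldRange := by
        rw [hj]
        exact hPA hx
      obtain ⟨y, hy⟩ := hx'
      have hy' : j y = x := hy
      refine Or.inr ⟨y, ?_, Subtype.ext hy⟩
      change j y ∈ P
      rw [hy']
      exact hx

end mak

end Pool.Agent.KS6_21.P3
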