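import Pool.Agent.KS6_21.P3.AZero

/-!
Sums of functions on independent surfaces and Frobenius pencils, for subfields of a field.
-/

set_option autoImplicit false
set_option linter.unusedVariables false
set_option linter.unusedSectionVars false

universe u

open Polynomial Pool.Agent.W177.WD Pool.Agent.KS6_21.P1 Pool.Agent.KS6_21.P2
  Pool.Agent.TH188.WQ Pool.Agent.TH214 Pool.Agent.N98 Pool.Agent.N762.RC Pool.Agent.N762.RC2
  Pool.Agent.N762.FP Pool.Agent.TH214.V

open Pool.Agent.W558 hiding Ovr ci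

namespace Pool.Agent.KS6_21.P3

variable (p : ℕ) [Fact p.Prime] {k K : Type u} [Field k] [PerfectField k] [CharP k p] [Field K]
  [Algebra k K]

/-- The function `a` is a `p`-th power or has a normal form. -/
def DiK (A : IntermediateField k K) (P : Set K) (a : K) : Prop :=
  P ⊆ A ∧ a ∈ A ∧ ∃ (L : Type u) (_ : Field L) (_ : Algebra k L) (j : L →ₐ[k] K)
    (a' : L), j.fieldRange = A ∧ j a' = a ∧
    ((∃ β, a' = β ^ p) ∧ Md p k (j ⁻¹' P) (fun e : Empty => (e.elim : L)) ∨
      Md p k (j ⁻¹' P) (fun _ : Unit => a'))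

lemma dik_const {c : K} (hc : c ∈ (⊥ : IntermediateField k K)) :
    DiK p (⊥ : IntermediateField k K) ((⊥ : IntermediateField k K) : Set K) c := by
  obtain ⟨a, rfl⟩ := IntermediateField.mem_bot.1 hc
  have := PerfectField.toPerfectRing (K := k) p
  obtain ⟨b, hb⟩ := surjective_frobenius k p a
  refine ⟨subset_rfl, hc, k, inferInstance, inferInstance, Algebra.ofId k K, a, ?_, rfl,
    Or.inl ⟨⟨b, hb.symm⟩, md_pt p _⟩⟩
  ext x
  constructor
  · rintro ⟨y, rfl⟩
    exact IntermediateField.algebraMap_mem _ y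
  · intro hx
    obtain ⟨y, rfl⟩ := IntermediateField.mem_bot.1 hx
    exact ⟨y, rfl⟩

lemma dik_surf (E : IntermediateField k K) (h1 : Algebra.trdeg k E = 2) (h2 : HasModel k E) {f : K}
    (hf : f ∈ E) : DiK p E (E : Set K) f := by
  refine ⟨subset_rfl, hf, E, inferInstance, inferInstance, E.val, ⟨f, hf⟩,
    IntermediateField.fieldRange_val _, rfl, ?_⟩
  by_cases h : ∃ b : E, b ^ p = ⟨f, hf⟩
  · obtain ⟨b, hb⟩ := h
    exact Or.inl ⟨⟨b, hb.symm⟩, (md_surf p h1 h2 (fun e : Empty => (e.elim : E))
      fun e => e.elim).mono (Set.subset_univ _)⟩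
  · exact Or.inr ((md_surf p h1 h2 (fun _ : Unit => (⟨f, hf⟩ : E)) fun _ => h).mono
      (Set.subset_univ _))

lemma md_addp {L : Type u} [Field L] [Algebra k L] {P : Set L} {f : L}
    (h : Md p k P (fun _ : Unit => f)) (b : L) : Md p k P (fun _ : Unit => b ^ p + f) :=
  md_add p h (fun _ => b) (fun _ _ => (1 : k)) (fun _ h => one_ne_zero (congrFun h ()))
    (fun i i' h => absurd rfl h) _ fun _ _ => by
      rw [Fintype.sum_eq_single ()]
      · simp
      · intro j hj
        exact absurd rfl hj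

lemma dik_add {A C : IntermediateField k K} {P Q : Set K} {f g : K} (h1 : DiK p A P f)
    (h2 : DiK p C Q g)
    (hinj : Function.Injective (Algebra.TensorProduct.productMap A.val C.val)) :
    DiK p (A ⊔ C) (P ∪ Q) (f + g) := by
  classical
  obtain ⟨hPA, hfA, L1, _, _, j1, f', hj1, hjf, hM1⟩ := h1
  obtain ⟨hQC, hgC, L2, _, _, j2, g', hj2, hjg, hM2⟩ := h2
  obtain ⟨i1, i2, hi1, hi2, hinj', htop⟩ := comp_field j1 hj1 j2 hj2 hinj
  have hcK : CharP (A ⊔ C : IntermediateField k K) p :=
    charP_of_injective_algebraMap (algebraMap k _).injective p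
  have hsub : ((A ⊔ C).val ⁻¹' (P ∪ Q)) ⊆ i1 '' (j1 ⁻¹' P) ∪ i2 '' (j2 ⁻¹' Q) := by
    rintro x (hx | hx)
    · have hx' : (x : K) ∈ j1.fieldRange := by
        rw [hj1]
        exact hPA hx
      obtain ⟨y, hy⟩ := hx'
      have hy' : j1 y = x := hy
      refine Or.inl ⟨y, ?_, Subtype.ext ((hi1 y).trans hy)⟩
      change j1 y ∈ P
      rw [hy']
      exact hx
    · have hx' : (x : K) ∈ j2.fieldRange := by
        rw [hj2]
        exact hQC hx
      obtain ⟨y, hy⟩ := hx'
      have hy' : j2 y = x := hy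
      refine Or.inr ⟨y, ?_, Subtype.ext ((hi2 y).trans hy)⟩
      change j2 y ∈ Q
      rw [hy']
      exact hx
  refine ⟨Set.union_subset (hPA.trans (le_sup_left : A ≤ A ⊔ C))
    (hQC.trans (le_sup_right : C ≤ A ⊔ C)), add_mem ((le_sup_left : A ≤ A ⊔ C) hfA)
    ((le_sup_right : C ≤ A ⊔ C) hgC), (A ⊔ C : IntermediateField k K), inferInstance,
    inferInstance, (A ⊔ C).val, i1 f' + i2 g', IntermediateField.fieldRange_val _, ?_, ?_⟩
  · change ((i1 f' : (A ⊔ C : IntermediateField k K)) : K) + (i2 g' : _) = f + g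
    rw [hi1, hi2, hjf, hjg]
  · rcases hM1 with ⟨⟨β, rfl⟩, hM1⟩ | hM1
    · rcases hM2 with ⟨⟨γ, rfl⟩, hM2⟩ | hM2
      · refine Or.inl ⟨⟨i1 β + i2 γ, ?_⟩, ?_⟩
        · rw [map_pow, map_pow, add_pow_char]
        · exact (((md_prod i1 i2 hinj' htop hM1 hM2).comp' (f' := fun e : Empty =>
            (e.elim : (A ⊔ C : IntermediateField k K))) (fun e => e.elim) (fun e => e.elim)
            fun e => e.elim)).mono hsub
      · right
        have h3 := (md_prod i1 i2 hinj' htop hM1 hM2).comp' (f' := fun _ : Unit => i2 g')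
          Sum.inr Sum.inr_injective fun _ => rfl
        rw [map_pow]
        exact (md_addp p h3 (i1 β)).mono hsub
    · rcases hM2 with ⟨⟨γ, rfl⟩, hM2⟩ | hM2
      · right
        have h3 := (md_prod i1 i2 hinj' htop hM1 hM2).comp' (f' := fun _ : Unit => i1 f')
          Sum.inl Sum.inl_injective fun _ => rfl
        rw [map_pow, add_comm]
        exact (md_addp p h3 (i2 γ)).mono hsub
      · right
        refine (md_add p (md_prod i1 i2 hinj' htop hM1 hM2) (fun _ : Unit => 0)
          (fun _ _ => (1 : k)) (fun _ h => one_ne_zero (congrFun h (Sum.inl ())))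
          (fun i i' h => absurd rfl h) _ fun hF _ => ?_).mono hsub
        obtain rfl : hF = instFintypeSum Unit Unit := Subsingleton.elim _ _
        rw [Fintype.sum_sum_type]
        simp [zero_pow (Fact.out : p.Prime).ne_zero]

/-- The Frobenius pencil. -/
lemma dik_frob {A : IntermediateField k K} {P : Set K} {a : K} (h : DiK p A P a)
    (ha : ∀ b ∈ A, b ^ p ≠ a) (w : K) (hw : Transcendental A w) :
    MdK p (A ⊔ IntermediateField.adjoin k {w}) (insert (w ^ p - a) P) (w ^ p - a) := by
  obtain ⟨hPA, hfA, L, _, _, j, a', hj, hja, hM⟩ := h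
  have hwm : w ∈ A ⊔ IntermediateField.adjoin k {w} :=
    (le_sup_right : IntermediateField.adjoin k {w} ≤ _)
      (IntermediateField.mem_adjoin_simple_self k w)
  refine ⟨?_, ?_⟩
  · rintro x (rfl | hx)
    · exact sub_mem (pow_mem hwm _) ((le_sup_left : A ≤ _) hfA)
    · exact (le_sup_left : A ≤ _) (hPA hx)
  have hM' : Md p k (j ⁻¹' P) (fun _ : Unit => a') := by
    rcases hM with ⟨⟨β, rfl⟩, -⟩ | hM
    · refine absurd ?_ (ha (j β) ?_)
      · rw [← map_pow, hja]
      · rw [← hj]
        exact ⟨β, rfl⟩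
    · exact hM
  let _ : Algebra L K := j.toRingHom.toAlgebra
  have : IsScalarTower k L K := IsScalarTower.of_algebraMap_eq fun x => (j.commutes x).symm
  have hwL : Transcendental L w := transc_of A hj hw
  let N := IntermediateField.adjoin L {w}
  let w' : N := ⟨w, IntermediateField.mem_adjoin_simple_self L w⟩
  have hw' : Transcendental L w' := (transcendental_algebraMap_iff (algebraMap N K).injective).1 hwL
  have h1 := md_pencil p (f := fun _ : Option Empty => a')
    (hM'.comp' (fun _ => ()) (fun _ _ _ => Subsingleton.elim _ _) fun _ => rfl) w' hw' (adj_top w)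
  have h2 := md_add p h1 (ι' := Unit) (fun _ => w') (fun _ _ => (-1 : k))
    (fun _ h => neg_ne_zero.2 one_ne_zero (congrFun h none)) (fun i i' h => absurd rfl h)
    (fun _ => w' ^ p - algebraMap L N a') fun hF _ => by
      rw [Fintype.sum_eq_single none]
      · simp [sub_eq_add_neg]
      · intro j hj
        exact absurd (Subsingleton.elim _ _) hj
  let j' : N →ₐ[k] K := N.val.restrictScalars k
  have hval : j' (w' ^ p - algebraMap L N a') = w ^ p - a := by
    rw [← hja]
    rfl
  refine ⟨N, inferInstance, inferInstance, j', w' ^ p - algebraMap L N a', ?_, hval,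
    h2.mono ?_⟩
  · have h2 : (IsScalarTower.toAlgHom k L K).fieldRange = A := hj
    rw [← h2, ← range_adjoin w]
    ext x
    constructor
    · rintro ⟨y, rfl⟩
      exact y.2
    · intro hx
      exact ⟨⟨x, hx⟩, rfl⟩
  · rintro x (hx | hx)
    · refine Or.inl ?_
      apply j'.toRingHom.injective
      exact Eq.trans hx hval.symm
    · have hx' : (x : K) ∈ j.fieldRange := by
        rw [hj]
        exact hPA hx
      obtain ⟨y, hy⟩ := hx'
      have hy' : j y = x := hy
      refine Or.inr ⟨y, ?_, Subtype.ext hy⟩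
      change j y ∈ P
      rw [hy']
      exact hx

/-- Functions on surfaces which are not `p`-th powers. -/
lemma mdk_surf (E : IntermediateField k K) (h1 : Algebra.trdeg k E = 2) (h2 : HasModel k E) {f : K}
    (hf : f ∈ E) (hfp : ∀ b ∈ E, b ^ p ≠ f) : MdK p E (E : Set K) f :=
  ⟨subset_rfl, E, inferInstance, inferInstance, E.val, ⟨f, hf⟩,
    IntermediateField.fieldRange_val _, rfl, (md_surf p h1 h2 (fun _ : Unit => (⟨f, hf⟩ : E))
      fun _ => fun ⟨b, hb⟩ => hfp b b.2 (congrArg Subtype.val hb)).mono (Set.subset_univ _)⟩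

/-- A new variable. -/
lemma mdk_var {y : K} (hy : Transcendental k y) :
    MdK p (IntermediateField.adjoin k {y}) {y} y := by
  let L := IntermediateField.adjoin k {y}
  let y' : L := ⟨y, IntermediateField.mem_adjoin_simple_self k y⟩
  have hy' : Transcendental k y' := (transcendental_algebraMap_iff (algebraMap L K).injective).1 hy
  have h1 := md_line p (md_pt p (∅ : Set k)) y' hy' (adj_top y)
  refine ⟨Set.singleton_subset_iff.2 (IntermediateField.mem_adjoin_simple_self k y), L,
    inferInstance, inferInstance, L.val, y', IntermediateField.fieldRange_val _, rfl,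
    ((h1.comp' (f' := fun _ : Unit => y') (fun _ => none) (fun _ _ _ => rfl)
      fun _ => rfl).mono ?_)⟩
  intro x hx
  exact Or.inr ⟨(), (Subtype.ext hx : x = y').symm⟩

end Pool.Agent.KS6_21.P3
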