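import Pool.Agent.KS6_21.P3.Comp

/-!
Formulas with coefficients: products, sums with a term, and the last term.
-/

set_option autoImplicit false
set_option linter.unusedVariables false
set_option linter.unusedSectionVars false

universe u

open Polynomial Pool.Agent.W177.WD Pool.Agent.KS6_21.P1 Pool.Agent.KS6_21.P2
  Pool.Agent.TH188.WQ Pool.Agent.TH214 Pool.Agent.N98 Pool.Agent.N762.RC Pool.Agent.N762.RC2
  Pool.Agent.N762.FP Pool.Agent.TH214.V

open Pool.Agent.W558 hiding Ovr ci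

namespace Pool.Agent.KS6_21.P3

variable (p : ℕ) [Fact p.Prime] {k K : Type u} [Field k] [PerfectField k] [CharP k p] [Field K]
  [Algebra k K]

/-- The coefficients: the function `f` is a `p`-th power, or it has a normal form. -/
def CoK (A : IntermediateField k K) (P : Set K) (f : K) : Prop :=
  P ⊆ A ∧ f ∈ P ∧ f ≠ 0 ∧ ∃ (L : Type u) (_ : Field L) (_ : Algebra k L) (j : L →ₐ[k] K)
    (f' : L), j.fieldRange = A ∧ j f' = f ∧
    (((∃ β, j β ∈ P ∧ f' = β ^ p) ∧ Md p k (j ⁻¹' P) (fun e : Empty => (e.elim : L))) ∨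
      Md p k (j ⁻¹' P) (fun _ : Unit => f'))

lemma cok_of_mdk {A : IntermediateField k K} {P : Set K} {F : K} (h : MdK p A P F)
    (hF : F ∈ P) : CoK p A P F := by
  obtain ⟨hPA, L, hL1, hL2, j, F', hj, hjF, hM⟩ := h
  refine ⟨hPA, hF, ?_, L, hL1, hL2, j, F', hj, hjF, Or.inr hM⟩
  rw [← hjF]
  exact (_root_.map_ne_zero j).2 (md_ne p hM ())

lemma cok_surf (E : IntermediateField k K) (h1 : Algebra.trdeg k E = 2) (h2 : HasModel k E) {f : K}
    (hf : f ∈ E) (hf0 : f ≠ 0) : CoK p E (E : Set K) f := by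
  refine ⟨subset_rfl, hf, hf0, E, inferInstance, inferInstance, E.val, ⟨f, hf⟩,
    IntermediateField.fieldRange_val _, rfl, ?_⟩
  by_cases h : ∃ b : E, b ^ p = ⟨f, hf⟩
  · obtain ⟨b, hb⟩ := h
    exact Or.inl ⟨⟨b, b.2, hb.symm⟩, (md_surf p h1 h2 (fun e : Empty => (e.elim : E))
      fun e => e.elim).mono (Set.subset_univ _)⟩
  · exact Or.inr ((md_surf p h1 h2 (fun _ : Unit => (⟨f, hf⟩ : E)) fun _ => h).mono
      (Set.subset_univ _))

lemma md_pt (P : Set k) : Md p k P (fun e : Empty => (e.elim : k)) := by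
  intro B _ b hb hb0
  have h1 : GM p k (fun e : Empty => (e.elim : k)) (fun e : Empty => (e.elim : k)) :=
    gm_point (fun x => ⟨x, rfl⟩) _ _
  refine gm_sub h1 b ?_
  intro T I _ _ M hFr hM i
  exact ⟨0, fun t => ⟨b i, hb0 i, Subalgebra.algebraMap_mem _ (b i),
    Subalgebra.algebraMap_mem _ (b i)⁻¹, by simp⟩⟩

lemma cok_const {c : K} (hc : c ∈ (⊥ : IntermediateField k K)) (hc0 : c ≠ 0) :
    CoK p (⊥ : IntermediateField k K) ((⊥ : IntermediateField k K) : Set K) c := by
  obtain ⟨a, rfl⟩ := IntermediateField.mem_bot.1 hc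
  have := PerfectField.toPerfectRing (K := k) p
  obtain ⟨b, hb⟩ := surjective_frobenius k p a
  refine ⟨subset_rfl, hc, hc0, k, inferInstance, inferInstance, Algebra.ofId k K, a, ?_, rfl,
    Or.inl ⟨⟨b, IntermediateField.algebraMap_mem _ _, hb.symm⟩, md_pt p _⟩⟩
  ext x
  constructor
  · rintro ⟨y, rfl⟩
    exact IntermediateField.algebraMap_mem _ y
  · intro hx
    obtain ⟨y, rfl⟩ := IntermediateField.mem_bot.1 hx
    exact ⟨y, rfl⟩

lemma cok_var {y : K} (hy : Transcendental k y) :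
    CoK p (IntermediateField.adjoin k {y}) {y} y := by
  let L := IntermediateField.adjoin k {y}
  let y' : L := ⟨y, IntermediateField.mem_adjoin_simple_self k y⟩
  have hy' : Transcendental k y' := (transcendental_algebraMap_iff (algebraMap L K).injective).1 hy
  have hy0 : y ≠ 0 := by
    rintro rfl
    exact hy isAlgebraic_zero
  have h1 := md_line p (md_pt p (∅ : Set k)) y' hy' (adj_top y)
  refine ⟨Set.singleton_subset_iff.2 (IntermediateField.mem_adjoin_simple_self k y), rfl, hy0, L,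
    inferInstance, inferInstance, L.val, y', IntermediateField.fieldRange_val _, rfl,
    Or.inr ((h1.comp' (f' := fun _ : Unit => y') (fun _ => none) (fun _ _ _ => rfl)
      fun _ => rfl).mono ?_)⟩
  intro x hx
  exact Or.inr ⟨(), (Subtype.ext hx : x = y').symm⟩

/-- The compositum with a field of coefficients. -/
lemma cok_comp {A C : IntermediateField k K} {P Q : Set K} {F f : K} (h : MdK p A P F)
    (hC : CoK p C Q f)
    (hinj : Function.Injective (Algebra.TensorProduct.productMap A.val C.val)) :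
    ∃ (F' f' : (A ⊔ C : IntermediateField k K)), (F' : K) = F ∧ (f' : K) = f ∧
      Md p k ((A ⊔ C).val ⁻¹' (P ∪ Q)) (fun _ : Unit => F') ∧
      ((∃ β ∈ (A ⊔ C).val ⁻¹' (P ∪ Q), f' = β ^ p) ∨
        Md p k ((A ⊔ C).val ⁻¹' (P ∪ Q)) (fun b : Bool => if b = true then f' else F')) := by
  classical
  obtain ⟨hPA, L1, _, _, j1, F', hj1, hjF, hM⟩ := h
  obtain ⟨hQC, hfQ, hf0, L2, _, _, j2, f', hj2, hjf, hM2⟩ := hC
  obtain ⟨i1, i2, hi1, hi2, hinj', htop⟩ := comp_field j1 hj1 j2 hj2 hinj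
  have hsub : ((A ⊔ C).val ⁻¹' (P ∪ Q)) ⊆ i1 '' (j1 ⁻¹' P) ∪ i2 '' (j2 ⁻¹' Q) := by
    rintro x (hx | hx)
    · have hx' : (x : K) ∈ j1.fieldRange := by
        rw [hj1]
        exact hPA hx
      obtain ⟨y, hy⟩ := hx'
      have hy' : j1 y = x := hy
      refine Or.inl ⟨y, ?_, Subtype.ext ((hi1 y).trans hy)⟩
      change j1 y ∈ P
      rw [hy']
      exact hx
    · have hx' : (x : K) ∈ j2.fieldRange := by
        rw [hj2]
        exact hQC hx
      obtain ⟨y, hy⟩ := hx'
      have hy' : j2 y = x := hy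
      refine Or.inr ⟨y, ?_, Subtype.ext ((hi2 y).trans hy)⟩
      change j2 y ∈ Q
      rw [hy']
      exact hx
  refine ⟨i1 F', i2 f', (hi1 F').trans hjF, (hi2 f').trans hjf, ?_, ?_⟩
  · rcases hM2 with ⟨-, h3⟩ | h3
    · exact ((md_prod i1 i2 hinj' htop hM h3).comp' Sum.inl Sum.inl_injective fun _ => rfl).mono
        hsub
    · exact ((md_prod i1 i2 hinj' htop hM h3).comp' Sum.inl Sum.inl_injective fun _ => rfl).mono
        hsub
  · rcases hM2 with ⟨⟨β, hβ, hfβ⟩, h3⟩ | h3
    · refine Or.inl ⟨i2 β, ?_, by rw [hfβ, map_pow]⟩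
      change ((i2 β : (A ⊔ C : IntermediateField k K)) : K) ∈ P ∪ Q
      rw [hi2]
      exact Or.inr hβ
    · refine Or.inr (((md_prod i1 i2 hinj' htop hM h3).comp'
        (fun b : Bool => if b = true then Sum.inr () else Sum.inl ()) (by
          intro a b
          cases a <;> cases b <;> simp) (by
          intro b
          cases b <;> rfl)).mono hsub)

/-- Products. -/
theorem mdk_mul {A C : IntermediateField k K} {P Q : Set K} {F f : K} (h : MdK p A P F)
    (hFP : F ∈ P) (hC : CoK p C Q f)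
    (hinj : Function.Injective (Algebra.TensorProduct.productMap A.val C.val)) (e e' : ℤ)
    (he : ¬ (p : ℤ) ∣ e) :
    MdK p (A ⊔ C) (insert (F ^ e * f ^ e') (P ∪ Q)) (F ^ e * f ^ e') := by
  classical
  have hPA : P ⊆ A := h.1
  have hQC : Q ⊆ C := hC.1
  have hfQ : f ∈ Q := hC.2.1
  have hf0 : f ≠ 0 := hC.2.2.1
  have hFm : F ∈ A ⊔ C := (le_sup_left : A ≤ A ⊔ C) (hPA hFP)
  have hfm : f ∈ A ⊔ C := (le_sup_right : C ≤ A ⊔ C) (hQC hfQ)
  obtain ⟨F', f', hF', hf', hM1, hM2⟩ := cok_comp p h hC hinj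
  have hf'0 : f' ≠ 0 := by
    rintro rfl
    exact hf0 hf'.symm
  have hFS : F' ∈ (A ⊔ C).val ⁻¹' (P ∪ Q) := by
    change (F' : K) ∈ P ∪ Q
    rw [hF']
    exact Or.inl hFP
  have hfS : f' ∈ (A ⊔ C).val ⁻¹' (P ∪ Q) := by
    change (f' : K) ∈ P ∪ Q
    rw [hf']
    exact Or.inr hfQ
  have hval : ((F' ^ e * f' ^ e' : (A ⊔ C : IntermediateField k K)) : K) = F ^ e * f ^ e' := by
    rw [← hF', ← hf']
    push_cast
    rfl
  refine ⟨?_, (A ⊔ C : IntermediateField k K), inferInstance, inferInstance, (A ⊔ C).val,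
    F' ^ e * f' ^ e', IntermediateField.fieldRange_val _, hval, ?_⟩
  · rintro x (rfl | hx | hx)
    · exact mul_mem (zpow_mem hFm _) (zpow_mem hfm _)
    · exact (le_sup_left : A ≤ A ⊔ C) (hPA hx)
    · exact (le_sup_right : C ≤ A ⊔ C) (hQC hx)
  have hsub : (A ⊔ C).val ⁻¹' (insert (F ^ e * f ^ e') (P ∪ Q)) ⊆
      insert (F' ^ e * f' ^ e') ((A ⊔ C).val ⁻¹' (P ∪ Q)) := by
    rintro x (hx | hx)
    · refine Or.inl (Subtype.ext ?_)
      exact Eq.trans hx hval.symm
    · exact Or.inr hx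
  refine Md.mono ?_ hsub
  rcases hM2 with ⟨β, hβ, rfl⟩ | hM2
  · have hβ0 : β ≠ 0 := by
      rintro rfl
      exact hf'0 (zero_pow (Fact.out : p.Prime).ne_zero)
    have h1 := md_sat hM1 (Q := insert (β ^ e') (insert (F' ^ e * (β ^ p) ^ e')
      ((A ⊔ C).val ⁻¹' (P ∪ Q)))) (by
        rintro q (rfl | rfl | hq) hq0
        · exact ⟨1, one_ne_zero, 1, 1, fun _ => β, fun _ => e', fun _ => hβ, by simp⟩
        · refine ⟨1, one_ne_zero, 1, 2, ![F', β ^ p], ![e, e'], ?_, ?_⟩
          · intro i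
            fin_cases i
            · exact hFS
            · exact hfS
          · simp [Fin.prod_univ_two]
        · exact ⟨1, one_ne_zero, 1, 1, fun _ => q, fun _ => 1, fun _ => hq, by simp⟩)
    have h2 := md_mul p h1 (ι' := Unit) (fun _ _ => e) (fun _ => ⟨(), he⟩)
      (fun i i' h => absurd rfl h) (fun _ _ _ => Or.inl (Or.inr (Or.inr hFS)))
      (fun _ => F' ^ e) (fun _ _ => by
        rw [Fintype.prod_eq_single ()]
        intro j hj
        exact absurd rfl hj)
    have h3 := md_mulp p h2 (fun _ => β ^ e') (fun _ => Or.inl rfl)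
      (fun _ => zpow_ne_zero _ hβ0)
    have h4 : (β ^ e') ^ p * F' ^ e = F' ^ e * (β ^ p) ^ e' := by
      rw [mul_comm, ← zpow_natCast, ← zpow_natCast, ← zpow_mul, ← zpow_mul, mul_comm e']
    rw [h4] at h3
    exact h3.mono (Set.subset_insert _ _)
  · have h2 := md_mul p hM2 (ι' := Unit) (fun _ b => if b = true then e' else e)
      (fun _ => ⟨false, by simpa using he⟩) (fun i i' h => absurd rfl h) (fun _ b _ => Or.inl (by
        cases b
        · exact hFS
        · exact hfS)) (fun _ => F' ^ e * f' ^ e') (fun hb _ => by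
        obtain rfl : hb = Bool.fintype := Subsingleton.elim _ _
        rw [Fintype.prod_bool]
        simp [mul_comm])
    refine md_sat h2 ?_
    rintro q (rfl | hq) hq0
    · refine ⟨1, one_ne_zero, 1, 2, ![F', f'], ![e, e'], ?_, ?_⟩
      · intro i
        fin_cases i
        · exact hFS
        · exact hfS
      · simp [Fin.prod_univ_two]
    · exact ⟨1, one_ne_zero, 1, 1, fun _ => q, fun _ => 1, fun _ => hq, by simp⟩

/-- Adding a term. -/
theorem mdk_add {A C : IntermediateField k K} {P Q : Set K} {F f : K} (h : MdK p A P F)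
    (hFP : F ∈ P) (hC : CoK p C Q f)
    (hinj : Function.Injective (Algebra.TensorProduct.productMap A.val C.val))
    (z : K) (hz : Transcendental (A ⊔ C : IntermediateField k K) z)
    (d : ℕ) (hd0 : d ≠ 0) (hd : ¬ p ^ 2 ∣ d) :
    MdK p ((A ⊔ C) ⊔ IntermediateField.adjoin k {z}) (insert z (insert (F + f * z ^ d) (P ∪ Q)))
      (F + f * z ^ d) := by
  have hPA : P ⊆ A := h.1
  have hQC : Q ⊆ C := hC.1
  have hfQ : f ∈ Q := hC.2.1
  have hf0 : f ≠ 0 := hC.2.2.1
  have hFA : F ∈ A := hPA hFP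
  have hfC : f ∈ C := hQC hfQ
  have hle1 : A ≤ (A ⊔ C) ⊔ IntermediateField.adjoin k {z} := le_sup_left.trans le_sup_left
  have hle2 : C ≤ (A ⊔ C) ⊔ IntermediateField.adjoin k {z} := le_sup_right.trans le_sup_left
  have hzm : z ∈ (A ⊔ C) ⊔ IntermediateField.adjoin k {z} :=
    (le_sup_right : IntermediateField.adjoin k {z} ≤ _)
      (IntermediateField.mem_adjoin_simple_self k z)
  refine ⟨?_, ?_⟩
  · rintro x (rfl | rfl | hx | hx)
    · exact hzm
    · exact add_mem (hle1 hFA) (mul_mem (hle2 hfC) (pow_mem hzm _))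
    · exact hle1 (hPA hx)
    · exact hle2 (hQC hx)
  obtain ⟨F', f', hF', hf', hM, hM2⟩ := cok_comp p h hC hinj
  let D : IntermediateField k K := A ⊔ C
  let N := IntermediateField.adjoin D {z}
  let z' : N := ⟨z, IntermediateField.mem_adjoin_simple_self D z⟩
  have hz' : Transcendental D z' := (transcendental_algebraMap_iff (algebraMap N K).injective).1 hz
  have hf'0 : f' ≠ 0 := by
    rintro rfl
    exact hf0 hf'.symm
  have h1 := md_step p F' f' (P := (A ⊔ C).val ⁻¹' (P ∪ Q)) (Or.inl (by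
    change (F' : K) ∈ P
    rw [hF']; exact hFP)) (Or.inr (by
    change (f' : K) ∈ Q
    rw [hf']; exact hfQ)) hf'0 hM hM2 z' hz' (adj_top z) d hd0 hd
  let j' : N →ₐ[k] K := N.val.restrictScalars k
  have hval : j' (algebraMap D N F' + algebraMap D N f' * z' ^ d) = F + f * z ^ d := by
    rw [← hF', ← hf']
    rfl
  refine ⟨N, inferInstance, inferInstance, j', algebraMap D N F' + algebraMap D N f' * z' ^ d,
    ?_, hval, h1.mono ?_⟩
  · have h2 : (IsScalarTower.toAlgHom k D K).fieldRange = A ⊔ C := by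
      ext x
      constructor
      · rintro ⟨y, rfl⟩
        exact y.2
      · intro hx
        exact ⟨⟨x, hx⟩, rfl⟩
    conv_rhs => rw [← h2]
    rw [← range_adjoin z]
    ext x
    constructor
    · rintro ⟨y, rfl⟩
      exact y.2
    · intro hx
      exact ⟨⟨x, hx⟩, rfl⟩
  · intro x hx
    rcases hx with hx | hx | hx
    · exact Or.inl (Subtype.ext hx)
    · refine Or.inr (Or.inl ?_)
      apply j'.toRingHom.injective
      exact Eq.trans hx hval.symm
    · have hxm : (x : K) ∈ D := by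
        rcases hx with hx | hx
        · exact (le_sup_left : A ≤ A ⊔ C) (hPA hx)
        · exact (le_sup_right : C ≤ A ⊔ C) (hQC hx)
      exact Or.inr (Or.inr ⟨⟨x, hxm⟩, hx, rfl⟩)

/-- The last term. -/
theorem mdk_end {A C : IntermediateField k K} {P Q : Set K} {F f : K} (h : MdK p A P F)
    (hFP : F ∈ P) (hC : CoK p C Q f)
    (hinj : Function.Injective (Algebra.TensorProduct.productMap A.val C.val))
    (z : K) (d : ℕ) (hd : ¬ p ^ 2 ∣ d) (hz : F + f * z ^ d = 0)
    (htop : (A ⊔ C) ⊔ IntermediateField.adjoin k {z} = ⊤) :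
    Mod k (insert z (P ∪ Q)) := by
  have hPA : P ⊆ A := h.1
  have hQC : Q ⊆ C := hC.1
  have hfQ : f ∈ Q := hC.2.1
  have hf0 : f ≠ 0 := hC.2.2.1
  obtain ⟨F', f', hF', hf', hM, hM2⟩ := cok_comp p h hC hinj
  let D : IntermediateField k K := A ⊔ C
  have hf'0 : f' ≠ 0 := by
    rintro rfl
    exact hf0 hf'.symm
  have h2 : (IsScalarTower.toAlgHom k D K).fieldRange = A ⊔ C := by
    ext x
    constructor
    · rintro ⟨y, rfl⟩
      exact y.2
    · intro hx
      exact ⟨⟨x, hx⟩, rfl⟩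
  have hgen : IntermediateField.adjoin D {z} = ⊤ := by
    rw [← h2, ← range_adjoin z] at htop
    rw [eq_top_iff]
    intro x _
    have h3 : x ∈ (IntermediateField.adjoin D {z}).restrictScalars k := by
      rw [htop]
      trivial
    exact h3
  have h1 := md_last p F' f' (P := (A ⊔ C).val ⁻¹' (P ∪ Q)) (N := K) (Or.inl (by
    change (F' : K) ∈ P
    rw [hF']; exact hFP)) (Or.inr (by
    change (f' : K) ∈ Q
    rw [hf']; exact hfQ)) hf'0 hM hM2 z hgen d hd (by
    change (F' : K) + (f' : K) * z ^ d = 0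
    rw [hF', hf']
    exact hz)
  refine (h1.mono ?_).mod
  rintro x (hx | hx)
  · exact Or.inl hx
  · have hxm : x ∈ D := by
      rcases hx with hx | hx
      · exact (le_sup_left : A ≤ A ⊔ C) (hPA hx)
      · exact (le_sup_right : C ≤ A ⊔ C) (hQC hx)
    exact Or.inr ⟨⟨x, hxm⟩, hx, rfl⟩

end Pool.Agent.KS6_21.P3
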