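import Pool.Agent.KS6_21.P3.AStep

/-!
Fields with an Artin-Schreier normal form of a function; sums; pencils.
-/

set_option autoImplicit false
set_option linter.unusedVariables false
set_option linter.unusedSectionVars false

universe u

open Polynomial Pool.Agent.W177.WD Pool.Agent.KS6_21.P1 Pool.Agent.KS6_21.P2
  Pool.Agent.TH188.WQ Pool.Agent.TH214 Pool.Agent.N98 Pool.Agent.N762.RC Pool.Agent.N762.RC2
  Pool.Agent.N762.FP Pool.Agent.TH214.V

open Pool.Agent.W558 hiding Ovr ci

namespace Pool.Agent.KS6_21.P3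

/-- The finite families of nonzero elements of `P` are boundary functions on models on which the
function `f` has an Artin-Schreier normal form. -/
def Ma (p : ℕ) (k : Type u) {K : Type u} [Field k] [Field K] [Algebra k K] (P : Set K)
    (f : K) : Prop :=
  ∀ (B : Type) [Finite B] (b : B → K), (∀ i, b i ∈ P) → (∀ i, b i ≠ 0) →
    GMA p k (fun _ : Unit => f) b

section basic

variable {p : ℕ} {k K : Type u} [Field k] [Field K] [Algebra k K] {P : Set K} {ι : Type}
  {f : ι → K}

/-- Change of the boundary functions. -/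
lemma gma_sub {G G' : Type} {g : G → K} (h : GMA p k f g) (g' : G' → K)
    (hg' : ∀ (T I : Type) (_ : Finite T) (_ : Fintype I) (M : LM (⊥ : Subalgebra k K) ⊤ T I),
      Frc M → (∀ b, IsB M (g b)) → ∀ b', IsB M (g' b')) : GMA p k f g' := by
  obtain ⟨T, I, hT, hI, M, n, a, h, Γ, hN, hG, hR⟩ := h
  have h1 : ∀ b', IsB M (g' b') := hg' T I hT hI M hR fun b => ⟨Γ b, fun t => hG b t⟩
  choose Γ' hΓ' using h1
  exact ⟨T, I, hT, hI, M, n, a, h, Γ', hN, fun b t => hΓ' b t, hR⟩

lemma Ma.mono {f : K} (h : Ma p k P f) {Q : Set K} (hQ : Q ⊆ P) : Ma p k Q f :=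
  fun B _ b hb hb0 => h B b (fun i => hQ (hb i)) hb0

/-- Surfaces. -/
theorem ma_surf (p : ℕ) [Fact p.Prime] {k E : Type u} [Field k] [Field E] [Algebra k E]
    [PerfectField k] [CharP k p] (h2 : Algebra.trdeg k E = 2) (hE : HasModel k E) (f : E) :
    Ma p k (Set.univ : Set E) f :=
  fun B _ b _ hb0 => gma_surf ws_pack p k E h2 hE B f b hb0

end basic

section sum

variable {p : ℕ} [Fact p.Prime] {k K1 K2 K : Type u} [Field k] [CharP k p] [Field K1] [Field K2]
  [Field K] [Algebra k K1] [Algebra k K2] [Algebra k K] (i1 : K1 →ₐ[k] K) (i2 : K2 →ₐ[k] K)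

/-- Sums of functions of independent variables. -/
theorem ma_add (hinj : Function.Injective (Algebra.TensorProduct.productMap i1 i2))
    (htop : IntermediateField.adjoin k (Set.range i1 ∪ Set.range i2) = ⊤)
    {P1 : Set K1} {P2 : Set K2} {f1 : K1} {f2 : K2} (h1 : Ma p k P1 f1) (h2 : Ma p k P2 f2) :
    Ma p k (i1 '' P1 ∪ i2 '' P2) (i1 f1 + i2 f2) := by
  classical
  have hcK : CharP K p := charP_of_injective_algebraMap (algebraMap k K).injective p
  intro B _ b hb hb0
  have hc1 : ∀ i : {i : B // b i ∈ i1 '' P1}, ∃ a ∈ P1, i1 a = b i := fun i => i.2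
  have hc2 : ∀ i : {i : B // b i ∈ i2 '' P2}, ∃ a ∈ P2, i2 a = b i := fun i => i.2
  choose a1 ha1 hb1 using hc1
  choose a2 ha2 hb2 using hc2
  have h3 := gma_prod wa_prod i1 i2 hinj (exists_tensor i1 i2 hinj htop)
    (h1 _ a1 ha1 fun i h => hb0 i (by rw [← hb1, h, map_zero]))
    (h2 _ a2 ha2 fun i h => hb0 i (by rw [← hb2, h, map_zero]))
  obtain ⟨T, I, hT, hI, M, n, a, h, Γ, hN, hG, hR⟩ := gma_sum wa_sum h3 (i1 f1 + i2 f2)
    (fun hF => by
      have hF' : hF = instFintypeSum Unit Unit := Subsingleton.elim _ _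
      subst hF'
      rw [Fintype.sum_sum_type]
      simp)
  have h4 : GMA p k (fun _ : Unit => i1 f1 + i2 f2)
      (Sum.elim (fun j => i1 (a1 j)) fun j => i2 (a2 j)) :=
    ⟨T, I, hT, hI, M, fun _ => n, fun t _ => a t, fun t _ => h t, Γ,
      ⟨fun _ => hN.n0, fun t _ => hN.hA t, fun t _ => hN.eq t, fun t κ _ _ φ j hj => by
        obtain ⟨v, hv⟩ := hN.ln t κ φ hj
        exact ⟨v, hv, fun l hl => absurd (Subsingleton.elim l j) hl⟩⟩, hG, hR⟩
  refine gma_sub h4 b ?_
  intro T I _ _ M hFr hM i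
  rcases hb i with h | h
  · have h4 := hM (Sum.inl ⟨i, h⟩)
    simp only [Sum.elim_inl, hb1] at h4
    exact h4
  · have h4 := hM (Sum.inr ⟨i, h⟩)
    simp only [Sum.elim_inr, hb2] at h4
    exact h4

end sum

section pencil

variable (p : ℕ) [Fact p.Prime] {k L K : Type u} [Field k] [PerfectField k] [CharP k p] [Field L]
  [Field K] [Algebra k L] [Algebra L K] [Algebra k K] [IsScalarTower k L K] {P : Set L}

/-- Pencils. -/
theorem ma_pencil {f : L} (hP : Ma p k P f) (hf : ∀ b : L, b ^ p - b ≠ f) (Z : K)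
    (hZ : Transcendental L Z) (hgen : IntermediateField.adjoin L {Z} = ⊤) :
    Md p k (insert (Z ^ p - Z - algebraMap L K f) (algebraMap L K '' P))
      (fun _ : Unit => Z ^ p - Z - algebraMap L K f) := by
  classical
  intro B _ b hb hb0
  have hc1 : ∀ i : {i : B // b i ∈ algebraMap L K '' P}, ∃ a ∈ P, algebraMap L K a = b i :=
    fun i => i.2
  choose a ha hba using hc1
  have h1 := apencil3 p f a (hP _ a ha fun i h => hb0 i (by rw [← hba, h, map_zero])) hf Z hZ hgen
  refine gm_sub h1 b ?_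
  intro T I _ _ M hFr hM i
  by_cases h : b i ∈ algebraMap L K '' P
  · have h4 := hM (Sum.inl ⟨i, h⟩)
    simp only [Sum.elim_inl, hba] at h4
    exact h4
  · have h5 : b i = Z ^ p - Z - algebraMap L K f := (hb i).resolve_right h
    have h4 := hM (Sum.inr ())
    rw [h5]
    exact h4

end pencil

end Pool.Agent.KS6_21.P3
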